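import Mathlib
import Pool.Agent.H20.HASC.Defs

/-!
# Polynomials restricted to lines of matrices; the Lie algebra of a Zariski closed group
-/

set_option autoImplicit false

open Matrix Polynomial

noncomputable section

namespace Pool.Agent.H17.HASC

open Pool.Agent.H20.HASC

/-- complex polynomial functions on `4 × 4` matrices -/
abbrev CPoly : Type := MvPolynomial (I4 × I4) ℂ

/-- value of a complex polynomial at a matrix -/
def cev (f : CPoly) (M : Matrix I4 I4 ℂ) : ℂ :=
  MvPolynomial.aeval (fun ij : I4 × I4 => M ij.1 ij.2) f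

/-- value of a rational polynomial at a complex matrix -/
def qev (p : MvPolynomial (I4 × I4) ℚ) (M : Matrix I4 I4 ℂ) : ℂ :=
  MvPolynomial.aeval (fun ij : I4 × I4 => M ij.1 ij.2) p

/-- restriction of `f` to the line `A + t B` -/
def line (f : CPoly) (A B : Matrix I4 I4 ℂ) : ℂ[X] :=
  MvPolynomial.aeval (fun ij : I4 × I4 => C (A ij.1 ij.2) + C (B ij.1 ij.2) * X) f

lemma eval_line (f : CPoly) (A B : Matrix I4 I4 ℂ) (t : ℂ) :
    (line f A B).eval t = cev f (A + t • B) := by
  have h : (Polynomial.evalRingHom t).comp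
      (MvPolynomial.aeval (fun ij : I4 × I4 => C (A ij.1 ij.2) + C (B ij.1 ij.2) * X) :
        CPoly →ₐ[ℂ] ℂ[X]).toRingHom =
      (MvPolynomial.aeval (fun ij : I4 × I4 => (A + t • B) ij.1 ij.2) :
        CPoly →ₐ[ℂ] ℂ).toRingHom := by
    apply MvPolynomial.ringHom_ext
    · intro r
      simp
    · intro i
      show eval t (MvPolynomial.aeval _ (MvPolynomial.X i)) = MvPolynomial.aeval _ (MvPolynomial.X i)
      rw [MvPolynomial.aeval_X, MvPolynomial.aeval_X]
      simp only [eval_add, eval_C, eval_mul, eval_X, Matrix.add_apply, Matrix.smul_apply,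
        smul_eq_mul, mul_comm t]
  exact congrArg (fun g : CPoly →+* ℂ => g f) h

/-- derivative of `f` at `A` in the direction `B` -/
def dAt (f : CPoly) (A B : Matrix I4 I4 ℂ) : ℂ :=
  ∑ ij : I4 × I4, cev (MvPolynomial.pderiv ij f) A * B ij.1 ij.2

lemma cev_add (f g : CPoly) (M : Matrix I4 I4 ℂ) : cev (f + g) M = cev f M + cev g M := by
  simp [cev]

lemma cev_mul (f g : CPoly) (M : Matrix I4 I4 ℂ) : cev (f * g) M = cev f M * cev g M := by
  simp [cev]

lemma derivative_line (f : CPoly) (A B : Matrix I4 I4 ℂ) (t : ℂ) :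
    (derivative (line f A B)).eval t = dAt f (A + t • B) B := by
  induction f using MvPolynomial.induction_on with
  | C a => simp [line, dAt, cev]
  | add p q hp hq =>
    have : line (p + q) A B = line p A B + line q A B := by simp [line]
    rw [this, derivative_add, eval_add, hp, hq]
    simp only [dAt, map_add, cev_add, add_mul, Finset.sum_add_distrib]
  | mul_X p kl hp =>
    have h1 : line (p * MvPolynomial.X kl) A B = line p A B * (C (A kl.1 kl.2) + C (B kl.1 kl.2) * X) := by
      simp [line]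
    rw [h1, derivative_mul, eval_add, eval_mul, eval_mul, hp, eval_line]
    simp only [dAt, MvPolynomial.pderiv_mul, cev_add, cev_mul, add_mul, Finset.sum_add_distrib]
    congr 1
    · rw [Finset.sum_mul]
      apply Finset.sum_congr rfl
      intro ij _
      simp only [cev, MvPolynomial.aeval_X, Matrix.add_apply, Matrix.smul_apply, smul_eq_mul,
        eval_add, eval_C, eval_mul, eval_X]
      ring
    · rw [Finset.sum_eq_single kl]
      · simp [cev]
      · intro b _ hb
        simp [MvPolynomial.pderiv_X, hb.symm, cev]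
      · intro h; exact absurd (Finset.mem_univ _) h

lemma dAt_add (f : CPoly) (A B B' : Matrix I4 I4 ℂ) : dAt f A (B + B') = dAt f A B + dAt f A B' := by
  simp only [dAt, Matrix.add_apply, mul_add, Finset.sum_add_distrib]

lemma dAt_smul (f : CPoly) (A B : Matrix I4 I4 ℂ) (c : ℂ) : dAt f A (c • B) = c * dAt f A B := by
  simp only [dAt, Matrix.smul_apply, smul_eq_mul, Finset.mul_sum]
  apply Finset.sum_congr rfl
  intro ij _
  ring

/-- if a polynomial vanishes on infinitely many points of a line, it vanishes on the line -/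
lemma line_eq_zero (f : CPoly) (A B : Matrix I4 I4 ℂ) (h : {t : ℂ | cev f (A + t • B) = 0}.Infinite) :
    line f A B = 0 := by
  apply Polynomial.eq_zero_of_infinite_isRoot
  refine h.mono ?_
  intro t ht
  show (line f A B).eval t = 0
  rw [eval_line]; exact ht

lemma cev_line_zero (f : CPoly) (A B : Matrix I4 I4 ℂ)
    (h : {t : ℂ | cev f (A + t • B) = 0}.Infinite) (t : ℂ) : cev f (A + t • B) = 0 := by
  rw [← eval_line, line_eq_zero f A B h, eval_zero]

lemma dAt_of_line_zero (f : CPoly) (A B : Matrix I4 I4 ℂ)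
    (h : {t : ℂ | cev f (A + t • B) = 0}.Infinite) : dAt f A B = 0 := by
  have := derivative_line f A B 0
  rw [line_eq_zero f A B h, derivative_zero, eval_zero, zero_smul, add_zero] at this
  exact this.symm

/-- the polynomial `f(U x V)` -/
def sand (f : CPoly) (U V : Matrix I4 I4 ℂ) : CPoly :=
  MvPolynomial.aeval (fun ij : I4 × I4 =>
    (U.map (MvPolynomial.C : ℂ →+* CPoly) *
      (Matrix.of fun i j => (MvPolynomial.X (i, j) : CPoly)) *
      V.map (MvPolynomial.C : ℂ →+* CPoly)) ij.1 ij.2) f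

lemma cev_sand (f : CPoly) (U V M : Matrix I4 I4 ℂ) : cev (sand f U V) M = cev f (U * M * V) := by
  have h : (MvPolynomial.aeval (fun ij : I4 × I4 => M ij.1 ij.2) : CPoly →ₐ[ℂ] ℂ).comp
      (MvPolynomial.aeval (fun ij : I4 × I4 =>
        (U.map (MvPolynomial.C : ℂ →+* CPoly) *
          (Matrix.of fun i j => (MvPolynomial.X (i, j) : CPoly)) *
          V.map (MvPolynomial.C : ℂ →+* CPoly)) ij.1 ij.2) : CPoly →ₐ[ℂ] CPoly) =
      MvPolynomial.aeval (fun ij : I4 × I4 => (U * M * V) ij.1 ij.2) := by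
    apply MvPolynomial.algHom_ext
    intro ij
    simp only [AlgHom.comp_apply, MvPolynomial.aeval_X, Matrix.mul_apply, Matrix.map_apply,
      Matrix.of_apply, map_sum, map_mul, Finset.sum_mul]
    simp
  exact congrArg (fun g : CPoly →ₐ[ℂ] ℂ => g f) h

lemma dAt_sand (f : CPoly) (U V A B : Matrix I4 I4 ℂ) :
    dAt (sand f U V) A B = dAt f (U * A * V) (U * B * V) := by
  have h : line (sand f U V) A B = line f (U * A * V) (U * B * V) := by
    apply Polynomial.funext
    intro t
    rw [eval_line, eval_line, cev_sand]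
    congr 1
    rw [Matrix.mul_add, Matrix.add_mul, Matrix.mul_smul, Matrix.smul_mul]
  have h1 := derivative_line (sand f U V) A B 0
  have h2 := derivative_line f (U * A * V) (U * B * V) 0
  rw [zero_smul, add_zero] at h1 h2
  rw [← h1, ← h2, h]

/-! ### the Lie algebra -/

/-- `f` vanishes on `H` -/
def Van (H : Subgroup (GL I4 ℂ)) (f : CPoly) : Prop := ∀ h ∈ H, cev f (h : Matrix I4 I4 ℂ) = 0

/-- the Lie algebra of `H` -/
def lie (H : Subgroup (GL I4 ℂ)) : Submodule ℂ (Matrix I4 I4 ℂ) where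
  carrier := {M | ∀ f, Van H f → dAt f 1 M = 0}
  add_mem' := by
    intro M N hM hN f hf
    rw [dAt_add, hM f hf, hN f hf, add_zero]
  zero_mem' := by
    intro f _
    simp [dAt]
  smul_mem' := by
    intro c M hM f hf
    rw [dAt_smul, hM f hf, mul_zero]

lemma mem_lie {H : Subgroup (GL I4 ℂ)} {M : Matrix I4 I4 ℂ} :
    M ∈ lie H ↔ ∀ f, Van H f → dAt f 1 M = 0 := Iff.rfl

/-- `M` is (the matrix of) an element of `H` -/
def Mem (H : Subgroup (GL I4 ℂ)) (M : Matrix I4 I4 ℂ) : Prop := ∃ h ∈ H, (h : Matrix I4 I4 ℂ) = M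

lemma Mem.mul {H : Subgroup (GL I4 ℂ)} {M N : Matrix I4 I4 ℂ} (hM : Mem H M) (hN : Mem H N) :
    Mem H (M * N) := by
  obtain ⟨g, hg, rfl⟩ := hM
  obtain ⟨h, hh, rfl⟩ := hN
  exact ⟨g * h, H.mul_mem hg hh, rfl⟩

lemma lie_conj {H : Subgroup (GL I4 ℂ)} {M : Matrix I4 I4 ℂ} (hM : M ∈ lie H) (g : GL I4 ℂ)
    (hg : g ∈ H) : (g : Matrix I4 I4 ℂ) * M * ((g⁻¹ : GL I4 ℂ) : Matrix I4 I4 ℂ) ∈ lie H := by
  intro f hf
  have h1 : Van H (sand f g ((g⁻¹ : GL I4 ℂ) : Matrix I4 I4 ℂ)) := by
    intro h hh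
    rw [cev_sand]
    exact hf (g * h * g⁻¹) (H.mul_mem (H.mul_mem hg hh) (H.inv_mem hg))
  have h2 := hM _ h1
  rw [dAt_sand] at h2
  have h3 : (g : Matrix I4 I4 ℂ) * 1 * ((g⁻¹ : GL I4 ℂ) : Matrix I4 I4 ℂ) = 1 := by
    rw [Matrix.mul_one, ← Units.val_mul, mul_inv_cancel]; rfl
  rwa [h3] at h2

/-- a line through `1` contained in `H` (at infinitely many points) is tangent to the Lie
algebra -/
lemma lie_of_line {H : Subgroup (GL I4 ℂ)} {M : Matrix I4 I4 ℂ}
    (h : {t : ℂ | Mem H (1 + t • M)}.Infinite) : M ∈ lie H := by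
  intro f hf
  apply dAt_of_line_zero
  refine h.mono ?_
  rintro t ⟨g, hg, hgt⟩
  show cev f (1 + t • M) = 0
  rw [← hgt]; exact hf g hg

/-- the derivation attached to a left invariant vector field: `(D_M f)(x) = df_x(x M)` -/
def DM (M : Matrix I4 I4 ℂ) (f : CPoly) : CPoly :=
  ∑ ij : I4 × I4, MvPolynomial.pderiv ij f *
    (∑ k, MvPolynomial.X (ij.1, k) * MvPolynomial.C (M k ij.2))

lemma cev_DM (M A : Matrix I4 I4 ℂ) (f : CPoly) : cev (DM M f) A = dAt f A (A * M) := by
  simp only [cev, DM, dAt, map_sum, map_mul, MvPolynomial.aeval_X, Matrix.mul_apply]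
  simp

lemma van_DM {H : Subgroup (GL I4 ℂ)} {M : Matrix I4 I4 ℂ} (hM : M ∈ lie H) {f : CPoly}
    (hf : Van H f) : Van H (DM M f) := by
  intro h hh
  rw [cev_DM]
  have h1 : Van H (sand f (h : Matrix I4 I4 ℂ) 1) := by
    intro g hg
    rw [cev_sand, Matrix.mul_one]
    exact hf (h * g) (H.mul_mem hh hg)
  have h2 := hM _ h1
  rwa [dAt_sand, Matrix.mul_one, Matrix.mul_one, Matrix.mul_one] at h2

/-- exponentials of square-zero elements of the Lie algebra -/
lemma line_of_lie {H : Subgroup (GL I4 ℂ)} {M : Matrix I4 I4 ℂ} (hM : M ∈ lie H)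
    (hM2 : M * M = 0) {f : CPoly} (hf : Van H f) : line f 1 M = 0 := by
  have key : ∀ n : ℕ, ∀ f, Van H f → ((derivative^[n]) (line f 1 M)).eval 0 = 0 := by
    intro n
    induction n with
    | zero =>
      intro f hf
      rw [Function.iterate_zero, id, eval_line, zero_smul, add_zero]
      exact hf 1 H.one_mem
    | succ n ih =>
      intro f hf
      have h1 : derivative (line f 1 M) = line (DM M f) 1 M := by
        apply Polynomial.funext
        intro t
        rw [derivative_line, eval_line, cev_DM]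
        congr 1
        rw [Matrix.add_mul, Matrix.one_mul, Matrix.smul_mul, hM2, smul_zero, add_zero]
      rw [Function.iterate_succ, Function.comp_apply, h1]
      exact ih _ (van_DM hM hf)
  ext n
  have h1 := key n f hf
  rw [← coeff_zero_eq_eval_zero, coeff_iterate_derivative] at h1
  simp only [zero_add, Nat.descFactorial_self, nsmul_eq_mul] at h1
  have h2 : ((n.factorial : ℕ) : ℂ) ≠ 0 := by exact_mod_cast n.factorial_ne_zero
  rw [coeff_zero]
  exact (mul_eq_zero.mp h1).resolve_left h2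

end Pool.Agent.H17.HASC
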