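import Mathlib
import Pool.Agent.H17.HASC.Poly

/-!
# Galois conjugation for algebraic groups over `ℚ`
-/

set_option autoImplicit false

open Matrix Polynomial

noncomputable section

namespace Pool.Agent.H17.HASC

open Pool.Agent.H20.HASC

/-- `√3` as a complex number -/
def s3 : ℂ := ((Real.sqrt 3 : ℝ) : ℂ)

lemma s3_sq : s3 * s3 = 3 := by
  rw [s3, ← Complex.ofReal_mul, Real.mul_self_sqrt (by norm_num)]
  norm_num

lemma s3_ne : s3 ≠ 0 := by
  intro h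
  have := s3_sq
  rw [h, mul_zero] at this
  norm_num at this

/-- the field `ℚ(i)` -/
def GR (x : ℂ) : Prop := ∃ a b : ℚ, x = a + b * Complex.I

lemma GR.add {x y : ℂ} (hx : GR x) (hy : GR y) : GR (x + y) := by
  obtain ⟨a, b, rfl⟩ := hx
  obtain ⟨c, d, rfl⟩ := hy
  exact ⟨a + c, b + d, by push_cast; ring⟩

lemma GR.mul {x y : ℂ} (hx : GR x) (hy : GR y) : GR (x * y) := by
  obtain ⟨a, b, rfl⟩ := hx
  obtain ⟨c, d, rfl⟩ := hy
  refine ⟨a * c - b * d, a * d + b * c, ?_⟩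
  push_cast
  linear_combination ((b : ℂ) * d) * Complex.I_sq

lemma GR.rat (q : ℚ) : GR (q : ℂ) := ⟨q, 0, by simp⟩

lemma GR.three_mul {x : ℂ} (hx : GR x) : GR (3 * x) := by
  have : (3 : ℂ) = ((3 : ℚ) : ℂ) := by norm_num
  rw [this]
  exact (GR.rat 3).mul hx

lemma sqrt3_irr : Irrational (Real.sqrt 3) := by
  have := Nat.Prime.irrational_sqrt (p := 3) (by norm_num)
  simpa using this

lemma indep_real (a b : ℚ) (h : (a : ℝ) + Real.sqrt 3 * b = 0) : a = 0 ∧ b = 0 := by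
  have hb : b = 0 := by
    by_contra hb
    apply sqrt3_irr
    refine ⟨-a / b, ?_⟩
    have hb' : (b : ℝ) ≠ 0 := by exact_mod_cast hb
    push_cast
    field_simp
    linarith
  subst hb
  simp at h
  exact ⟨h, rfl⟩

lemma indep (x y : ℂ) (hx : GR x) (hy : GR y) (h : x + s3 * y = 0) : x = 0 ∧ y = 0 := by
  obtain ⟨a, b, rfl⟩ := hx
  obtain ⟨c, d, rfl⟩ := hy
  have h1 := congrArg Complex.re h
  have h2 := congrArg Complex.im h
  simp [s3] at h1 h2
  obtain ⟨ha, hc⟩ := indep_real a c h1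
  obtain ⟨hb, hd⟩ := indep_real b d h2
  simp [ha, hb, hc, hd]

lemma gal (p : MvPolynomial (I4 × I4) ℚ) (M0 M1 : Matrix I4 I4 ℂ)
    (h0 : ∀ i j, GR (M0 i j)) (h1 : ∀ i j, GR (M1 i j)) :
    ∃ A B, GR A ∧ GR B ∧ qev p (M0 + s3 • M1) = A + s3 * B ∧ qev p (M0 - s3 • M1) = A - s3 * B := by
  induction p using MvPolynomial.induction_on with
  | C a =>
    refine ⟨a, 0, GR.rat a, ?_, ?_, ?_⟩
    · simpa using GR.rat 0
    · simp [qev]
    · simp [qev]
  | add p q hp hq =>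
    obtain ⟨A, B, hA, hB, e1, e2⟩ := hp
    obtain ⟨A', B', hA', hB', e1', e2'⟩ := hq
    refine ⟨A + A', B + B', hA.add hA', hB.add hB', ?_, ?_⟩
    · have : qev (p + q) (M0 + s3 • M1) = qev p (M0 + s3 • M1) + qev q (M0 + s3 • M1) := by
        simp [qev]
      rw [this, e1, e1']; ring
    · have : qev (p + q) (M0 - s3 • M1) = qev p (M0 - s3 • M1) + qev q (M0 - s3 • M1) := by
        simp [qev]
      rw [this, e2, e2']; ring
  | mul_X p kl hp =>
    obtain ⟨A, B, hA, hB, e1, e2⟩ := hp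
    have g0 := h0 kl.1 kl.2
    have g1 := h1 kl.1 kl.2
    refine ⟨A * M0 kl.1 kl.2 + 3 * (B * M1 kl.1 kl.2), A * M1 kl.1 kl.2 + B * M0 kl.1 kl.2,
      (hA.mul g0).add (hB.mul g1).three_mul, (hA.mul g1).add (hB.mul g0), ?_, ?_⟩
    · have : qev (p * MvPolynomial.X kl) (M0 + s3 • M1) =
        qev p (M0 + s3 • M1) * (M0 kl.1 kl.2 + s3 * M1 kl.1 kl.2) := by
        simp [qev]
      rw [this, e1]
      linear_combination (B * M1 kl.1 kl.2) * s3_sq
    · have : qev (p * MvPolynomial.X kl) (M0 - s3 • M1) =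
        qev p (M0 - s3 • M1) * (M0 kl.1 kl.2 - s3 * M1 kl.1 kl.2) := by
        simp [qev]
      rw [this, e2]
      linear_combination (B * M1 kl.1 kl.2) * s3_sq

lemma gal_zero (p : MvPolynomial (I4 × I4) ℚ) (M0 M1 : Matrix I4 I4 ℂ)
    (h0 : ∀ i j, GR (M0 i j)) (h1 : ∀ i j, GR (M1 i j)) (h : qev p (M0 + s3 • M1) = 0) :
    qev p (M0 - s3 • M1) = 0 := by
  obtain ⟨A, B, hA, hB, e1, e2⟩ := gal p M0 M1 h0 h1
  rw [h] at e1
  obtain ⟨rfl, rfl⟩ := indep A B hA hB e1.symm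
  rw [e2]; ring

/-- complex conjugation -/
lemma qev_conj (p : MvPolynomial (I4 × I4) ℚ) (M : Matrix I4 I4 ℂ) :
    qev p (M.map (starRingEnd ℂ)) = starRingEnd ℂ (qev p M) := by
  have h : (MvPolynomial.aeval (fun ij : I4 × I4 => (M.map (starRingEnd ℂ)) ij.1 ij.2) :
      MvPolynomial (I4 × I4) ℚ →ₐ[ℚ] ℂ).toRingHom = (starRingEnd ℂ).comp
      (MvPolynomial.aeval (fun ij : I4 × I4 => M ij.1 ij.2) :
      MvPolynomial (I4 × I4) ℚ →ₐ[ℚ] ℂ).toRingHom := by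
    apply MvPolynomial.ringHom_ext
    · intro r; simp
    · intro i; simp
  exact congrArg (fun g : MvPolynomial (I4 × I4) ℚ →+* ℂ => g p) h

/-- the complex polynomial attached to a rational one -/
lemma qev_eq_cev (p : MvPolynomial (I4 × I4) ℚ) (M : Matrix I4 I4 ℂ) :
    qev p M = cev (MvPolynomial.map (algebraMap ℚ ℂ) p) M := by
  simp only [qev, cev, MvPolynomial.aeval_map_algebraMap]

variable {H : Subgroup (GL I4 ℂ)}

lemma mem_iff_of_Q {E : Set (MvPolynomial (I4 × I4) ℚ)}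
    (hE : ∀ g : GL I4 ℂ, g ∈ H ↔ ∀ p ∈ E, qev p (g : Matrix I4 I4 ℂ) = 0)
    (M : Matrix I4 I4 ℂ) : Mem H M ↔ IsUnit M ∧ ∀ p ∈ E, qev p M = 0 := by
  constructor
  · rintro ⟨g, hg, rfl⟩
    exact ⟨g.isUnit, (hE g).mp hg⟩
  · rintro ⟨⟨g, rfl⟩, h⟩
    exact ⟨g, (hE g).mpr h, rfl⟩

lemma exists_E (hQ : IsQSubgroup H) : ∃ E : Set (MvPolynomial (I4 × I4) ℚ),
    ∀ M : Matrix I4 I4 ℂ, Mem H M ↔ IsUnit M ∧ ∀ p ∈ E, qev p M = 0 := by
  obtain ⟨E, hE⟩ := hQ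
  exact ⟨E, mem_iff_of_Q hE⟩

lemma Mem.isUnit {M : Matrix I4 I4 ℂ} (h : Mem H M) : IsUnit M := by
  obtain ⟨g, _, rfl⟩ := h
  exact g.isUnit

lemma Mem.conj (hQ : IsQSubgroup H) {M : Matrix I4 I4 ℂ} (h : Mem H M) :
    Mem H (M.map (starRingEnd ℂ)) := by
  obtain ⟨E, hE⟩ := exists_E hQ
  rw [hE] at h ⊢
  refine ⟨?_, fun p hp => ?_⟩
  · exact h.1.map (starRingEnd ℂ).mapMatrix
  · rw [qev_conj, h.2 p hp, map_zero]

/-- Zariski density along a line -/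
lemma Mem.line (hQ : IsQSubgroup H) {A B : Matrix I4 I4 ℂ}
    (h : {t : ℂ | Mem H (A + t • B)}.Infinite) (t : ℂ) (ht : IsUnit (A + t • B)) :
    Mem H (A + t • B) := by
  obtain ⟨E, hE⟩ := exists_E hQ
  rw [hE]
  refine ⟨ht, fun p hp => ?_⟩
  rw [qev_eq_cev]
  apply cev_line_zero
  refine h.mono ?_
  intro s hs
  rw [Set.mem_ofPred_eq, hE] at hs
  show cev _ _ = 0
  rw [← qev_eq_cev]
  exact hs.2 p hp

lemma Mem.gal (hQ : IsQSubgroup H) {M0 M1 : Matrix I4 I4 ℂ}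
    (h0 : ∀ i j, GR (M0 i j)) (h1 : ∀ i j, GR (M1 i j)) (h : Mem H (M0 + s3 • M1))
    (hu : IsUnit (M0 - s3 • M1)) : Mem H (M0 - s3 • M1) := by
  obtain ⟨E, hE⟩ := exists_E hQ
  rw [hE] at h ⊢
  exact ⟨hu, fun p hp => gal_zero p M0 M1 h0 h1 (h.2 p hp)⟩

lemma one_add_mul_one_sub {X : Matrix I4 I4 ℂ} (hX : X * X = 0) (t : ℂ) :
    (1 + t • X) * (1 - t • X) = 1 := by
  have h : ∀ Y : Matrix I4 I4 ℂ, Y * Y = 0 → (1 + Y) * (1 - Y) = 1 := by
    intro Y hY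
    have h2 : (1 + Y) * (1 - Y) = 1 - Y * Y := by noncomm_ring
    rw [h2, hY, sub_zero]
  apply h
  rw [Matrix.smul_mul, Matrix.mul_smul, hX]; simp

/-- a square-zero element of the Lie algebra exponentiates into `H` -/
lemma mem_of_lie (hQ : IsQSubgroup H) {M : Matrix I4 I4 ℂ} (hM : M ∈ lie H) (hM2 : M * M = 0)
    (t : ℂ) : Mem H (1 + t • M) := by
  obtain ⟨E, hE⟩ := exists_E hQ
  rw [hE]
  refine ⟨?_, fun p hp => ?_⟩
  · exact IsUnit.of_mul_eq_one (1 - t • M) (one_add_mul_one_sub hM2 t)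
  · rw [qev_eq_cev, ← eval_line, line_of_lie hM hM2, eval_zero]
    intro h hh
    rw [← qev_eq_cev]
    exact ((hE _).mp ⟨h, hh, rfl⟩).2 p hp

lemma lie_conj' {M A B : Matrix I4 I4 ℂ} (hM : M ∈ lie H) (hA : Mem H A) (hAB : A * B = 1) :
    A * M * B ∈ lie H := by
  obtain ⟨g, hg, rfl⟩ := hA
  have : B = ((g⁻¹ : GL I4 ℂ) : Matrix I4 I4 ℂ) := by
    calc B = ((g⁻¹ * g : GL I4 ℂ) : Matrix I4 I4 ℂ) * B := by rw [inv_mul_cancel]; simp
      _ = _ := by rw [Units.val_mul, Matrix.mul_assoc, hAB, Matrix.mul_one]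
  rw [this]
  exact lie_conj hM g hg

/-- brackets with square-zero elements -/
lemma lie_bracket (hQ : IsQSubgroup H) {X N : Matrix I4 I4 ℂ} (hX : X ∈ lie H) (hX2 : X * X = 0)
    (hN : N ∈ lie H) : X * N - N * X ∈ lie H := by
  have hu : ∀ t : ℂ, (1 + t • X) * (1 - t • X) = 1 := one_add_mul_one_sub hX2
  have h1 := lie_conj' hN (mem_of_lie hQ hX hX2 1) (hu 1)
  have h2 := lie_conj' hN (mem_of_lie hQ hX hX2 (-1)) (hu (-1))
  have h3 := (lie H).smul_mem (1 / 2 : ℂ) ((lie H).sub_mem h1 h2)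
  convert h3 using 1
  simp only [one_smul, neg_smul, sub_neg_eq_add]
  have e : (1 + X) * N * (1 - X) - (1 + -X) * N * (1 + X) = (2 : ℂ) • (X * N - N * X) := by
    rw [two_smul]; noncomm_ring
  rw [e, smul_smul]; norm_num

/-- the Lie algebra is stable under complex conjugation -/
lemma lie_star (hQ : IsQSubgroup H) {M : Matrix I4 I4 ℂ} (hM : M ∈ lie H) :
    M.map (starRingEnd ℂ) ∈ lie H := by
  intro f hf
  have hf' : Van H (MvPolynomial.map (starRingEnd ℂ) f) := by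
    intro h hh
    obtain ⟨g, hg, hge⟩ := Mem.conj hQ ⟨h, hh, rfl⟩
    have h1 := hf g hg
    rw [hge] at h1
    have h2 : cev (MvPolynomial.map (starRingEnd ℂ) f) (h : Matrix I4 I4 ℂ) =
        starRingEnd ℂ (cev f ((h : Matrix I4 I4 ℂ).map (starRingEnd ℂ))) := by
      simp only [cev, MvPolynomial.aeval_def, MvPolynomial.eval₂_map]
      rw [MvPolynomial.hom_eval₂]
      simp
    rw [h2, h1, map_zero]
  have h1 := hM _ hf'
  have h2 : dAt (MvPolynomial.map (starRingEnd ℂ) f) 1 M =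
      starRingEnd ℂ (dAt f 1 (M.map (starRingEnd ℂ))) := by
    simp only [dAt, map_sum, map_mul]
    apply Finset.sum_congr rfl
    intro ij _
    congr 1
    · rw [MvPolynomial.pderiv_map]
      simp only [cev, MvPolynomial.aeval_def, MvPolynomial.eval₂_map]
      rw [MvPolynomial.hom_eval₂]
      have h1 : (fun ij : I4 × I4 => (1 : Matrix I4 I4 ℂ) ij.1 ij.2) =
          (fun ij : I4 × I4 => (starRingEnd ℂ) ((1 : Matrix I4 I4 ℂ) ij.1 ij.2)) := by
        funext kl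
        rw [Matrix.one_apply]
        split_ifs <;> simp
      exact congrArg (fun g => MvPolynomial.eval₂ ((algebraMap ℂ ℂ).comp (starRingEnd ℂ)) g
        ((MvPolynomial.pderiv ij) f)) h1
    · simp
  rw [h2] at h1
  exact (map_eq_zero_iff _ (starRingEnd ℂ).injective).mp h1

end Pool.Agent.H17.HASC
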