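import Mathlib
import Pool.Agent.H17.HASC.Galois

/-!
# The torus attached to the point `o = diag(2i, i√3)`
-/

set_option autoImplicit false

open Matrix

noncomputable section

namespace Pool.Agent.H17.HASC

open Pool.Agent.H20.HASC

/-- the base point -/
def oo : Sym2 := (2 * Complex.I, 0, s3 * Complex.I)

/-- block matrices with diagonal blocks -/
def blk (A B C D : Fin 2 → ℂ) : Matrix I4 I4 ℂ :=
  fromBlocks (diagonal A) (diagonal B) (diagonal C) (diagonal D)

lemma blk_mul (A B C D A' B' C' D' : Fin 2 → ℂ) :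
    blk A B C D * blk A' B' C' D' =
      blk (A * A' + B * C') (A * B' + B * D') (C * A' + D * C') (C * B' + D * D') := by
  simp only [blk, fromBlocks_multiply, diagonal_mul_diagonal, diagonal_add]
  rfl

lemma blk_one : blk 1 0 0 1 = 1 := by
  simp only [blk]
  rw [show (diagonal (0 : Fin 2 → ℂ)) = 0 from diagonal_zero,
    show (diagonal (1 : Fin 2 → ℂ)) = 1 from diagonal_one, fromBlocks_one]

lemma blk_smul (c : ℂ) (A B C D : Fin 2 → ℂ) :
    c • blk A B C D = blk (c • A) (c • B) (c • C) (c • D) := by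
  simp only [blk, fromBlocks_smul, ← diagonal_smul]

lemma blk_add (A B C D A' B' C' D' : Fin 2 → ℂ) :
    blk A B C D + blk A' B' C' D' = blk (A + A') (B + B') (C + C') (D + D') := by
  simp only [blk, fromBlocks_add, diagonal_add]
  rfl

lemma blk_sub (A B C D A' B' C' D' : Fin 2 → ℂ) :
    blk A B C D - blk A' B' C' D' = blk (A - A') (B - B') (C - C') (D - D') := by
  rw [sub_eq_add_neg, ← neg_one_smul ℂ (blk A' B' C' D'), blk_smul, blk_add]
  simp only [neg_one_smul, ← sub_eq_add_neg]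

lemma blk_ext {A B C D A' B' C' D' : Fin 2 → ℂ} (hA : A = A') (hB : B = B') (hC : C = C')
    (hD : D = D') : blk A B C D = blk A' B' C' D' := by subst hA hB hC hD; rfl

/-- eigenbasis -/
def P : Matrix I4 I4 ℂ :=
  blk ![1 / 2, 1 / 2] ![-(2 * Complex.I), -(s3 * Complex.I)]
    ![-(Complex.I / 4), -(Complex.I * s3 / 6)] ![1, 1]

def Pinv : Matrix I4 I4 ℂ :=
  blk ![1, 1] ![2 * Complex.I, s3 * Complex.I] ![Complex.I / 4, Complex.I * s3 / 6]
    ![1 / 2, 1 / 2]

lemma I_mul_I' : Complex.I * Complex.I = -1 := Complex.I_mul_I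

lemma P_mul_Pinv : P * Pinv = 1 := by
  rw [P, Pinv, blk_mul, ← blk_one]
  apply blk_ext
  · ext k; fin_cases k
    · simp; linear_combination (-1 / 2 : ℂ) * I_mul_I'
    · simp; linear_combination (-1 / 6 * (s3 * s3) : ℂ) * I_mul_I' + (1 / 6 : ℂ) * s3_sq
  · ext k; fin_cases k
    · simp; ring
    · simp; ring
  · ext k; fin_cases k
    · simp
    · simp
  · ext k; fin_cases k
    · simp; linear_combination (-1 / 2 : ℂ) * I_mul_I'
    · simp; linear_combination (-1 / 6 * (s3 * s3) : ℂ) * I_mul_I' + (1 / 6 : ℂ) * s3_sq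

lemma Pinv_mul_P : Pinv * P = 1 := mul_eq_one_comm.mp P_mul_Pinv

/-- `P` as an element of the general linear group -/
def gP : GL I4 ℂ := ⟨P, Pinv, P_mul_Pinv, Pinv_mul_P⟩

/-- the diagonal matrix with entries `p, r` (upper) and `q, s` (lower) -/
def dg (p r q s : ℂ) : Matrix I4 I4 ℂ := blk ![p, r] 0 0 ![q, s]

/-- elements of the torus -/
def tor (p r q s : ℂ) : Matrix I4 I4 ℂ := P * dg p r q s * Pinv

lemma tor_mul (p r q s p' r' q' s' : ℂ) :
    tor p r q s * tor p' r' q' s' = tor (p * p') (r * r') (q * q') (s * s') := by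
  have h1 : dg p r q s * dg p' r' q' s' = dg (p * p') (r * r') (q * q') (s * s') := by
    rw [dg, dg, blk_mul, dg]
    apply blk_ext
    · ext k; fin_cases k <;> simp
    · ext k; fin_cases k <;> simp
    · ext k; fin_cases k <;> simp
    · ext k; fin_cases k <;> simp
  calc tor p r q s * tor p' r' q' s'
      = P * dg p r q s * (Pinv * P) * dg p' r' q' s' * Pinv := by
        simp only [tor, Matrix.mul_assoc]
    _ = P * (dg p r q s * dg p' r' q' s') * Pinv := by
        rw [Pinv_mul_P, Matrix.mul_one, Matrix.mul_assoc P]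
    _ = _ := by rw [h1, tor]

lemma tor_one : tor 1 1 1 1 = 1 := by
  have : dg 1 1 1 1 = 1 := by
    rw [dg, ← blk_one]
    apply blk_ext
    · ext k; fin_cases k <;> simp
    · rfl
    · rfl
    · ext k; fin_cases k <;> simp
  rw [tor, this, Matrix.mul_one, P_mul_Pinv]

lemma tor_isUnit {p r q s : ℂ} (hp : p ≠ 0) (hr : r ≠ 0) (hq : q ≠ 0) (hs : s ≠ 0) :
    IsUnit (tor p r q s) := by
  refine IsUnit.of_mul_eq_one (tor p⁻¹ r⁻¹ q⁻¹ s⁻¹) ?_
  rw [tor_mul, mul_inv_cancel₀ hp, mul_inv_cancel₀ hr, mul_inv_cancel₀ hq, mul_inv_cancel₀ hs,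
    tor_one]

/-- rational part of `J_o` -/
def Jr : Matrix I4 I4 ℂ := blk 0 ![-2, 0] ![1 / 2, 0] 0
/-- `√3`-part of `J_o` -/
def Js : Matrix I4 I4 ℂ := blk 0 ![0, -1] ![0, 1 / 3] 0

lemma tor_plus (a b : ℂ) : (a • (1 : Matrix I4 I4 ℂ) + b • Jr) + s3 • (b • Js) =
    tor (a + b * Complex.I) (a + b * Complex.I) (a - b * Complex.I) (a - b * Complex.I) := by
  rw [← blk_one, Jr, Js, tor, dg, P, Pinv]
  simp only [blk_smul, blk_add, blk_mul]
  apply blk_ext
  · ext k; fin_cases k
    · simp; linear_combination (a / 2 - b * Complex.I / 2) * I_mul_I'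
    · simp
      linear_combination (s3 * s3 * (a / 6 - b * Complex.I / 6)) * I_mul_I' -
        (a / 6 - b * Complex.I / 6) * s3_sq
  · ext k; fin_cases k
    · simp; linear_combination (-2 * b) * I_mul_I'
    · simp; linear_combination (-s3 * b) * I_mul_I'
  · ext k; fin_cases k
    · simp; linear_combination (b / 2) * I_mul_I'
    · simp; linear_combination (b * s3 / 3) * I_mul_I'
  · ext k; fin_cases k
    · simp; linear_combination (a / 2 + b * Complex.I / 2) * I_mul_I'
    · simp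
      linear_combination (s3 * s3 * (a / 6 + b * Complex.I / 6)) * I_mul_I' -
        (a / 6 + b * Complex.I / 6) * s3_sq

lemma tor_minus (a b : ℂ) : (a • (1 : Matrix I4 I4 ℂ) + b • Jr) - s3 • (b • Js) =
    tor (a + b * Complex.I) (a - b * Complex.I) (a - b * Complex.I) (a + b * Complex.I) := by
  rw [← blk_one, Jr, Js, tor, dg, P, Pinv]
  simp only [blk_smul, blk_add, blk_sub, blk_mul]
  apply blk_ext
  · ext k; fin_cases k
    · simp; linear_combination (a / 2 - b * Complex.I / 2) * I_mul_I'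
    · simp
      linear_combination (s3 * s3 * (a / 6 + b * Complex.I / 6)) * I_mul_I' -
        (a / 6 + b * Complex.I / 6) * s3_sq
  · ext k; fin_cases k
    · simp; linear_combination (-2 * b) * I_mul_I'
    · simp; linear_combination (s3 * b) * I_mul_I'
  · ext k; fin_cases k
    · simp; linear_combination (b / 2) * I_mul_I'
    · simp; linear_combination (-b * s3 / 3) * I_mul_I'
  · ext k; fin_cases k
    · simp; linear_combination (a / 2 + b * Complex.I / 2) * I_mul_I'
    · simp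
      linear_combination (s3 * s3 * (a / 6 - b * Complex.I / 6)) * I_mul_I' -
        (a / 6 - b * Complex.I / 6) * s3_sq

/-! ### the real matrix `J_o` -/

lemma toMat_oo : toMat oo = diagonal ![2 * Complex.I, s3 * Complex.I] := by
  ext i j
  fin_cases i <;> fin_cases j <;> simp [toMat, oo]

lemma hodgeJ_oo : hodgeJ oo = fromBlocks 0 (diagonal ![-2, -Real.sqrt 3])
    (diagonal ![1 / 2, (Real.sqrt 3)⁻¹]) 0 := by
  have hx : (toMat oo).map Complex.re = 0 := by
    rw [toMat_oo]
    ext i j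
    fin_cases i <;> fin_cases j <;> simp [s3]
  have hy : (toMat oo).map Complex.im = diagonal ![2, Real.sqrt 3] := by
    rw [toMat_oo]
    ext i j
    fin_cases i <;> fin_cases j <;> simp [s3]
  have hyi : (diagonal ![(2 : ℝ), Real.sqrt 3])⁻¹ = diagonal ![1 / 2, (Real.sqrt 3)⁻¹] := by
    apply Matrix.inv_eq_right_inv
    rw [diagonal_mul_diagonal, ← diagonal_one]
    congr 1
    ext k
    have : Real.sqrt 3 ≠ 0 := by positivity
    fin_cases k <;> simp [this]
  rw [hodgeJ]
  simp only [hx, hy, hyi, Matrix.zero_mul, Matrix.mul_zero, add_zero, neg_zero]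
  congr 1
  ext i j
  fin_cases i <;> fin_cases j <;> simp

lemma s3_inv : (((Real.sqrt 3)⁻¹ : ℝ) : ℂ) = s3 / 3 := by
  have h : s3 ≠ 0 := s3_ne
  rw [Complex.ofReal_inv]
  change s3⁻¹ = s3 / 3
  field_simp
  rw [pow_two]
  exact s3_sq.symm

lemma cplx_hodge_oo (s : ℂ) : cplxMat (hodge oo s) =
    ((s.re : ℂ) • (1 : Matrix I4 I4 ℂ) + (s.im : ℂ) • Jr) + s3 • ((s.im : ℂ) • Js) := by
  rw [hodge, hodgeJ_oo, Jr, Js, ← blk_one]
  simp only [blk_smul, blk_add]
  rw [← fromBlocks_one, ← diagonal_one, fromBlocks_smul, fromBlocks_smul, fromBlocks_add]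
  rw [cplxMat, fromBlocks_map, blk]
  congr 1
  · ext i j
    fin_cases i <;> fin_cases j <;> simp
  · ext i j
    fin_cases i <;> fin_cases j <;> simp [s3]
    ring
  · ext i j
    have h := s3_inv
    fin_cases i <;> fin_cases j <;> simp
    rw [Complex.ofReal_inv] at h
    rw [h]; ring
  · ext i j
    fin_cases i <;> fin_cases j <;> simp

variable {H : Subgroup (GL I4 ℂ)}

lemma mem_of_factors (ho : FactorsThrough oo H) {s : ℂ} (hs : s ≠ 0) :
    Mem H (((s.re : ℂ) • (1 : Matrix I4 I4 ℂ) + (s.im : ℂ) • Jr) + s3 • ((s.im : ℂ) • Js)) := by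
  obtain ⟨g, hg, h⟩ := ho s hs
  exact ⟨g, hg, by rw [h, cplx_hodge_oo]⟩

/-- real points infinitely many -/
lemma infinite_real {S : Set ℂ} (h : ∀ x : ℝ, x ≠ 0 → (x : ℂ) ∈ S) : S.Infinite := by
  have h1 : (Set.range (fun n : ℕ => (((n : ℝ) + 1 : ℝ) : ℂ))).Infinite := by
    apply Set.infinite_range_of_injective
    intro a b hab
    have : ((a : ℝ) + 1) = ((b : ℝ) + 1) := Complex.ofReal_injective hab
    have h2 : (a : ℝ) = b := by linarith
    exact_mod_cast h2
  refine h1.mono ?_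
  rintro _ ⟨n, rfl⟩
  exact h _ (by positivity)

lemma infinite_rat {S : Set ℂ} (h : ∀ x : ℚ, x ≠ 0 → (x : ℂ) ∈ S) : S.Infinite := by
  have h1 : (Set.range (fun n : ℕ => (((n : ℚ) + 1 : ℚ) : ℂ))).Infinite := by
    apply Set.infinite_range_of_injective
    intro a b hab
    have : ((a : ℚ) + 1) = ((b : ℚ) + 1) := Rat.cast_injective (α := ℂ) hab
    have h2 : (a : ℚ) = b := by linarith
    exact_mod_cast h2
  refine h1.mono ?_
  rintro _ ⟨n, rfl⟩
  exact h _ (by positivity)

lemma unit_plus {a b : ℂ} (h : a + b * Complex.I ≠ 0) (h' : a - b * Complex.I ≠ 0) :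
    IsUnit ((a • (1 : Matrix I4 I4 ℂ) + b • Jr) + s3 • (b • Js)) := by
  rw [tor_plus]; exact tor_isUnit h h h' h'

lemma unit_minus {a b : ℂ} (h : a + b * Complex.I ≠ 0) (h' : a - b * Complex.I ≠ 0) :
    IsUnit ((a • (1 : Matrix I4 I4 ℂ) + b • Jr) - s3 • (b • Js)) := by
  rw [tor_minus]; exact tor_isUnit h h' h' h

lemma real_ne {a b : ℝ} (hb : b ≠ 0) : (a : ℂ) + b * Complex.I ≠ 0 ∧ (a : ℂ) - b * Complex.I ≠ 0 := by
  constructor
  · intro h
    have := congrArg Complex.im h
    simp at this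
    exact hb this
  · intro h
    have := congrArg Complex.im h
    simp at this
    exact hb this

/-- complex points of the first circle -/
lemma mem_plus (hQ : IsQSubgroup H) (ho : FactorsThrough oo H) {a b : ℂ}
    (h : a + b * Complex.I ≠ 0) (h' : a - b * Complex.I ≠ 0) :
    Mem H ((a • (1 : Matrix I4 I4 ℂ) + b • Jr) + s3 • (b • Js)) := by
  -- real points
  have h1 : ∀ a b : ℝ, b ≠ 0 →
      Mem H (((a : ℂ) • (1 : Matrix I4 I4 ℂ) + (b : ℂ) • Jr) + s3 • ((b : ℂ) • Js)) := by
    intro a b hb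
    have hs : (⟨a, b⟩ : ℂ) ≠ 0 := by
      intro h; exact hb (congrArg Complex.im h)
    exact mem_of_factors ho hs
  -- complex a, real b
  have h2 : ∀ (a : ℂ) (b : ℝ), b ≠ 0 → a + b * Complex.I ≠ 0 → a - b * Complex.I ≠ 0 →
      Mem H ((a • (1 : Matrix I4 I4 ℂ) + (b : ℂ) • Jr) + s3 • ((b : ℂ) • Js)) := by
    intro a b hb hab hab'
    have e : ∀ t : ℂ, (t • (1 : Matrix I4 I4 ℂ) + (b : ℂ) • Jr) + s3 • ((b : ℂ) • Js) =
        ((b : ℂ) • Jr + s3 • ((b : ℂ) • Js)) + t • (1 : Matrix I4 I4 ℂ) := by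
      intro t; abel
    rw [e]
    apply Mem.line hQ
    · apply infinite_real
      intro x hx
      show Mem H _
      rw [← e]
      exact h1 x b hb
    · rw [← e]; exact unit_plus hab hab'
  have e : ∀ t : ℂ, (a • (1 : Matrix I4 I4 ℂ) + t • Jr) + s3 • (t • Js) =
      (a • (1 : Matrix I4 I4 ℂ)) + t • (Jr + s3 • Js) := by
    intro t
    rw [smul_add, smul_comm t s3, add_assoc]
  rw [e]
  apply Mem.line hQ
  · -- all but finitely many real b
    have hfin : {t : ℂ | a + t * Complex.I = 0 ∨ a - t * Complex.I = 0}.Finite := by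
      apply Set.Finite.subset (Set.toFinite ({a * Complex.I, -a * Complex.I} : Set ℂ))
      rintro t (ht | ht)
      · left; linear_combination (-Complex.I) * ht + t * I_mul_I'
      · right; rw [Set.mem_singleton_iff]; linear_combination (Complex.I) * ht + t * I_mul_I'
    have hinf : {t : ℂ | ∃ x : ℝ, x ≠ 0 ∧ t = x}.Infinite :=
      infinite_real (fun x hx => ⟨x, hx, rfl⟩)
    refine (hinf.sdiff hfin).mono ?_
    rintro t ⟨⟨x, hx, rfl⟩, ht⟩
    show Mem H _
    rw [← e]
    apply h2 a x hx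
    · intro h; exact ht (Or.inl h)
    · intro h; exact ht (Or.inr h)
  · rw [← e]; exact unit_plus h h'

lemma GR_smul_one_add (a b : ℚ) (i j : I4) :
    GR (((a : ℂ) • (1 : Matrix I4 I4 ℂ) + (b : ℂ) • Jr) i j) := by
  have h1 : GR ((1 : Matrix I4 I4 ℂ) i j) := by
    rw [Matrix.one_apply]
    split_ifs
    · simpa using GR.rat 1
    · simpa using GR.rat 0
  have h2 : GR (Jr i j) := by
    have h0 : GR 0 := by simpa using GR.rat 0
    rcases i with i | i <;> rcases j with j | j <;> fin_cases i <;> fin_cases j <;>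
      simp [Jr, blk]
    all_goals first
      | exact h0
      | (simpa using GR.rat (-2))
      | (simpa using GR.rat (1 / 2))
  rw [Matrix.add_apply, Matrix.smul_apply, Matrix.smul_apply, smul_eq_mul, smul_eq_mul]
  exact ((GR.rat a).mul h1).add ((GR.rat b).mul h2)

lemma GR_Js (b : ℚ) (i j : I4) : GR (((b : ℂ) • Js) i j) := by
  have h2 : GR (Js i j) := by
    have h0 : GR 0 := by simpa using GR.rat 0
    rcases i with i | i <;> rcases j with j | j <;> fin_cases i <;> fin_cases j <;>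
      simp [Js, blk]
    all_goals first
      | exact h0
      | (simpa using GR.rat (-1))
      | (simpa using GR.rat (1 / 3))
  rw [Matrix.smul_apply, smul_eq_mul]
  exact (GR.rat b).mul h2

/-- complex points of the conjugate circle -/
lemma mem_minus (hQ : IsQSubgroup H) (ho : FactorsThrough oo H) {a b : ℂ}
    (h : a + b * Complex.I ≠ 0) (h' : a - b * Complex.I ≠ 0) :
    Mem H ((a • (1 : Matrix I4 I4 ℂ) + b • Jr) - s3 • (b • Js)) := by
  -- rational points
  have h1 : ∀ a b : ℚ, b ≠ 0 →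
      Mem H (((a : ℂ) • (1 : Matrix I4 I4 ℂ) + (b : ℂ) • Jr) - s3 • ((b : ℂ) • Js)) := by
    intro a b hb
    have hb' : (b : ℝ) ≠ 0 := by exact_mod_cast hb
    obtain ⟨e1, e2⟩ := real_ne (a := (a : ℝ)) hb'
    have ea : (((a : ℝ) : ℂ)) = (a : ℂ) := by norm_cast
    have eb : (((b : ℝ) : ℂ)) = (b : ℂ) := by norm_cast
    rw [ea, eb] at e1 e2
    apply Mem.gal hQ (GR_smul_one_add a b) (GR_Js b)
    · exact mem_plus hQ ho e1 e2
    · exact unit_minus e1 e2
  -- complex a, rational b
  have h2 : ∀ (a : ℂ) (b : ℚ), b ≠ 0 → a + b * Complex.I ≠ 0 → a - b * Complex.I ≠ 0 →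
      Mem H ((a • (1 : Matrix I4 I4 ℂ) + (b : ℂ) • Jr) - s3 • ((b : ℂ) • Js)) := by
    intro a b hb hab hab'
    have e : ∀ t : ℂ, (t • (1 : Matrix I4 I4 ℂ) + (b : ℂ) • Jr) - s3 • ((b : ℂ) • Js) =
        ((b : ℂ) • Jr - s3 • ((b : ℂ) • Js)) + t • (1 : Matrix I4 I4 ℂ) := by
      intro t; abel
    rw [e]
    apply Mem.line hQ
    · apply infinite_rat
      intro x hx
      show Mem H _
      rw [← e]
      exact h1 x b hb
    · rw [← e]; exact unit_minus hab hab'
  have e : ∀ t : ℂ, (a • (1 : Matrix I4 I4 ℂ) + t • Jr) - s3 • (t • Js) =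
      (a • (1 : Matrix I4 I4 ℂ)) + t • (Jr - s3 • Js) := by
    intro t
    rw [smul_sub, smul_comm t s3, add_sub_assoc]
  rw [e]
  apply Mem.line hQ
  · have hfin : {t : ℂ | a + t * Complex.I = 0 ∨ a - t * Complex.I = 0}.Finite := by
      apply Set.Finite.subset (Set.toFinite ({a * Complex.I, -a * Complex.I} : Set ℂ))
      rintro t (ht | ht)
      · left; linear_combination (-Complex.I) * ht + t * I_mul_I'
      · right; rw [Set.mem_singleton_iff]; linear_combination (Complex.I) * ht + t * I_mul_I'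
    have hinf : {t : ℂ | ∃ x : ℚ, x ≠ 0 ∧ t = x}.Infinite :=
      infinite_rat (fun x hx => ⟨x, hx, rfl⟩)
    refine (hinf.sdiff hfin).mono ?_
    rintro t ⟨⟨x, hx, rfl⟩, ht⟩
    show Mem H _
    rw [← e]
    apply h2 a x hx
    · intro h; exact ht (Or.inl h)
    · intro h; exact ht (Or.inr h)
  · rw [← e]; exact unit_minus h h'

/-- the torus is contained in `H` -/
lemma mem_tor (hQ : IsQSubgroup H) (ho : FactorsThrough oo H) {p r q s : ℂ} (hp : p ≠ 0)
    (hr : r ≠ 0) (hs : s ≠ 0) (hpq : p * q = r * s) : Mem H (tor p r q s) := by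
  have h1 : ∀ u v : ℂ, u ≠ 0 → v ≠ 0 → Mem H (tor u u v v) := by
    intro u v hu hv
    have e1 : (u + v) / 2 + ((u - v) / (2 * Complex.I)) * Complex.I = u := by
      field_simp; ring
    have e2 : (u + v) / 2 - ((u - v) / (2 * Complex.I)) * Complex.I = v := by
      field_simp; ring
    have := mem_plus hQ ho (a := (u + v) / 2) (b := (u - v) / (2 * Complex.I))
      (by rw [e1]; exact hu) (by rw [e2]; exact hv)
    rw [tor_plus, e1, e2] at this
    exact this
  have h2 : ∀ u v : ℂ, u ≠ 0 → v ≠ 0 → Mem H (tor u v v u) := by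
    intro u v hu hv
    have e1 : (u + v) / 2 + ((u - v) / (2 * Complex.I)) * Complex.I = u := by
      field_simp; ring
    have e2 : (u + v) / 2 - ((u - v) / (2 * Complex.I)) * Complex.I = v := by
      field_simp; ring
    have := mem_minus hQ ho (a := (u + v) / 2) (b := (u - v) / (2 * Complex.I))
      (by rw [e1]; exact hu) (by rw [e2]; exact hv)
    rw [tor_minus, e1, e2] at this
    exact this
  have h3 := (h1 1 (s / p) one_ne_zero (div_ne_zero hs hp)).mul (h2 p r hp hr)
  rw [tor_mul] at h3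
  have e1 : s / p * r = q := by
    field_simp
    linear_combination -hpq
  have e2 : s / p * p = s := by field_simp
  rwa [one_mul, one_mul, e1, e2] at h3

end Pool.Agent.H17.HASC
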