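import Mathlib
import Pool.Agent.H17.HASC.Torus

/-!
# Roots of `ℚ`-subgroups of `GSp₄` containing `h_o(𝕊)`
-/

set_option autoImplicit false

open Matrix

noncomputable section

namespace Pool.Agent.H17.HASC

open Pool.Agent.H20.HASC

variable {H : Subgroup (GL I4 ℂ)}

/-- the Lie algebra in the eigenbasis `P` -/
def tl (H : Subgroup (GL I4 ℂ)) : Submodule ℂ (Matrix I4 I4 ℂ) where
  carrier := {M | P * M * Pinv ∈ lie H}
  add_mem' := by
    intro M N hM hN
    show P * (M + N) * Pinv ∈ lie H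
    rw [Matrix.mul_add, Matrix.add_mul]
    exact (lie H).add_mem hM hN
  zero_mem' := by
    show P * 0 * Pinv ∈ lie H
    rw [Matrix.mul_zero, Matrix.zero_mul]
    exact (lie H).zero_mem
  smul_mem' := by
    intro c M hM
    show P * (c • M) * Pinv ∈ lie H
    rw [Matrix.mul_smul, Matrix.smul_mul]
    exact (lie H).smul_mem c hM

lemma mem_tl {M : Matrix I4 I4 ℂ} : M ∈ tl H ↔ P * M * Pinv ∈ lie H := Iff.rfl

lemma mem_tl' {M : Matrix I4 I4 ℂ} (h : M ∈ lie H) : Pinv * M * P ∈ tl H := by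
  rw [mem_tl]
  have : P * (Pinv * M * P) * Pinv = (P * Pinv) * M * (P * Pinv) := by
    simp only [Matrix.mul_assoc]
  rw [this, P_mul_Pinv, Matrix.one_mul, Matrix.mul_one]
  exact h

/-- exponents -/
def ee : I4 → ℤ := Sum.elim ![1, 5] ![-1, -5]

/-- the operator `Ad(t)` on matrices -/
lemma tl_scale (hQ : IsQSubgroup H) (ho : FactorsThrough oo H) {M : Matrix I4 I4 ℂ}
    (hM : M ∈ tl H) : (Matrix.of fun i j => (2 : ℂ) ^ (ee i - ee j) * M i j) ∈ tl H := by
  have h2 : (2 : ℂ) ≠ 0 := by norm_num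
  have h1 : Mem H (tor 2 32 (1 / 2) (1 / 32)) :=
    mem_tor hQ ho (by norm_num) (by norm_num) (by norm_num) (by norm_num)
  have h3 : tor 2 32 (1 / 2) (1 / 32) * tor (1 / 2) (1 / 32) 2 32 = 1 := by
    rw [tor_mul, ← tor_one]; norm_num
  have h4 := lie_conj' (mem_tl.mp hM) h1 h3
  rw [mem_tl]
  convert h4 using 1
  have e1 : tor 2 32 (1 / 2) (1 / 32) * (P * M * Pinv) * tor (1 / 2) (1 / 32) 2 32 =
      P * dg 2 32 (1 / 2) (1 / 32) * (Pinv * P) * M * (Pinv * P) * dg (1 / 2) (1 / 32) 2 32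
        * Pinv := by
    simp only [tor, Matrix.mul_assoc]
  rw [e1, Pinv_mul_P, Matrix.mul_one, Matrix.mul_one]
  have e2 : dg 2 32 (1 / 2) (1 / 32) = diagonal (fun i => (2 : ℂ) ^ (ee i)) := by
    rw [dg, blk, show (diagonal (0 : Fin 2 → ℂ)) = 0 from diagonal_zero, fromBlocks_diagonal]
    congr 1
    ext i
    rcases i with i | i <;> fin_cases i <;> simp [ee] <;> norm_num
  have e3 : dg (1 / 2) (1 / 32) 2 32 = diagonal (fun i => (2 : ℂ) ^ (- ee i)) := by
    rw [dg, blk, show (diagonal (0 : Fin 2 → ℂ)) = 0 from diagonal_zero, fromBlocks_diagonal]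
    congr 1
    ext i
    rcases i with i | i <;> fin_cases i <;> simp [ee] <;> norm_num
  rw [e2, e3]
  have e4 : (Matrix.of fun i j => (2 : ℂ) ^ (ee i - ee j) * M i j) =
      diagonal (fun i => (2 : ℂ) ^ (ee i)) * M * diagonal (fun i => (2 : ℂ) ^ (- ee i)) := by
    ext i j
    rw [Matrix.mul_diagonal, Matrix.diagonal_mul, Matrix.of_apply, sub_eq_add_neg,
      zpow_add₀ h2]
    ring
  rw [e4]
  simp only [Matrix.mul_assoc]

lemma tl_pow (hQ : IsQSubgroup H) (ho : FactorsThrough oo H) {M : Matrix I4 I4 ℂ}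
    (hM : M ∈ tl H) (n : ℕ) :
    (Matrix.of fun i j => ((2 : ℂ) ^ (ee i - ee j)) ^ n * M i j) ∈ tl H := by
  induction n with
  | zero =>
    convert hM using 1
    ext i j; simp
  | succ n ih =>
    convert tl_scale hQ ho ih using 1
    ext i j
    simp only [Matrix.of_apply]
    ring

lemma tl_poly (hQ : IsQSubgroup H) (ho : FactorsThrough oo H) {M : Matrix I4 I4 ℂ}
    (hM : M ∈ tl H) (p : Polynomial ℂ) :
    (Matrix.of fun i j => p.eval ((2 : ℂ) ^ (ee i - ee j)) * M i j) ∈ tl H := by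
  have : (Matrix.of fun i j => p.eval ((2 : ℂ) ^ (ee i - ee j)) * M i j) =
      ∑ n ∈ Finset.range (p.natDegree + 1), p.coeff n •
        (Matrix.of fun i j => ((2 : ℂ) ^ (ee i - ee j)) ^ n * M i j) := by
    ext i j
    rw [Matrix.sum_apply]
    simp only [Matrix.of_apply, Matrix.smul_apply, smul_eq_mul]
    rw [Polynomial.eval_eq_sum_range, Finset.sum_mul]
    apply Finset.sum_congr rfl
    intro n _
    ring
  rw [this]
  exact (tl H).sum_mem (fun n _ => (tl H).smul_mem _ (tl_pow hQ ho hM n))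

/-- weight components -/
def comp (n : ℤ) (M : Matrix I4 I4 ℂ) : Matrix I4 I4 ℂ :=
  Matrix.of fun i j => if ee i - ee j = n then M i j else 0

lemma tl_comp (hQ : IsQSubgroup H) (ho : FactorsThrough oo H) {M : Matrix I4 I4 ℂ}
    (hM : M ∈ tl H) (n : ℤ) : comp n M ∈ tl H := by
  classical
  let s : Finset ℂ := insert ((2 : ℂ) ^ n) (Finset.univ.image
    (fun ij : I4 × I4 => (2 : ℂ) ^ (ee ij.1 - ee ij.2)))
  let r : ℂ → ℂ := fun x => if x = (2 : ℂ) ^ n then 1 else 0
  have hp := tl_poly hQ ho hM (Lagrange.interpolate s id r)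
  convert hp using 1
  ext i j
  simp only [comp, Matrix.of_apply]
  have h1 : (Lagrange.interpolate s id r).eval ((2 : ℂ) ^ (ee i - ee j)) =
      r ((2 : ℂ) ^ (ee i - ee j)) := by
    have := Lagrange.eval_interpolate_at_node (s := s) (v := id) r
      (Set.injOn_id _) (i := (2 : ℂ) ^ (ee i - ee j))
      (by
        apply Finset.mem_insert_of_mem
        exact Finset.mem_image.mpr ⟨(i, j), Finset.mem_univ _, rfl⟩)
    simpa using this
  rw [h1]
  have h2 : ((2 : ℂ) ^ (ee i - ee j) = (2 : ℂ) ^ n) ↔ ee i - ee j = n := by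
    constructor
    · intro h
      have h3 := congrArg (fun x : ℂ => ‖x‖) h
      simp only [norm_zpow, Complex.norm_ofNat] at h3
      exact zpow_right_injective₀ (by norm_num) (by norm_num) h3
    · intro h; rw [h]
  simp only [r, h2]
  split_ifs <;> simp

/-! matrix units -/

abbrev ia : I4 := Sum.inl 0
abbrev ib : I4 := Sum.inl 1
abbrev ic : I4 := Sum.inr 0
abbrev id' : I4 := Sum.inr 1

abbrev E (i j : I4) : Matrix I4 I4 ℂ := Matrix.single i j 1

lemma comp_two (M : Matrix I4 I4 ℂ) : comp 2 M = M ia ic • E ia ic := by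
  ext i j
  rcases i with i | i <;> rcases j with j | j <;> fin_cases i <;> fin_cases j <;>
    simp [comp, ee]

lemma comp_neg_two (M : Matrix I4 I4 ℂ) : comp (-2) M = M ic ia • E ic ia := by
  ext i j
  rcases i with i | i <;> rcases j with j | j <;> fin_cases i <;> fin_cases j <;>
    simp [comp, ee]

lemma comp_six (M : Matrix I4 I4 ℂ) : comp 6 M = M ia id' • E ia id' + M ib ic • E ib ic := by
  ext i j
  rcases i with i | i <;> rcases j with j | j <;> fin_cases i <;> fin_cases j <;>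
    simp [comp, ee]

lemma comp_neg_six (M : Matrix I4 I4 ℂ) :
    comp (-6) M = M id' ia • E id' ia + M ic ib • E ic ib := by
  ext i j
  rcases i with i | i <;> rcases j with j | j <;> fin_cases i <;> fin_cases j <;>
    simp [comp, ee]

lemma comp_four (M : Matrix I4 I4 ℂ) : comp 4 M = M ib ia • E ib ia + M ic id' • E ic id' := by
  ext i j
  rcases i with i | i <;> rcases j with j | j <;> fin_cases i <;> fin_cases j <;>
    simp [comp, ee]

lemma comp_neg_four (M : Matrix I4 I4 ℂ) :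
    comp (-4) M = M ia ib • E ia ib + M id' ic • E id' ic := by
  ext i j
  rcases i with i | i <;> rcases j with j | j <;> fin_cases i <;> fin_cases j <;>
    simp [comp, ee]

end Pool.Agent.H17.HASC
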