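import Mathlib
import Pool.Agent.H17.HASC.Roots

/-!
# The dichotomy for `ℚ`-subgroups of `GSp₄` containing `h_o(𝕊)`
-/

set_option autoImplicit false

open Matrix

noncomputable section

namespace Pool.Agent.H17.HASC

open Pool.Agent.H20.HASC

variable {H : Subgroup (GL I4 ℂ)}

/-! complex conjugation -/

/-- `conj P = P * Wc` -/
def Wc : Matrix I4 I4 ℂ :=
  blk 0 ![4 * Complex.I, 2 * s3 * Complex.I] ![Complex.I / 4, Complex.I * s3 / 6] 0

lemma s3_conj : (starRingEnd ℂ) s3 = s3 := by rw [s3, Complex.conj_ofReal]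

lemma c2 : (starRingEnd ℂ) 2 = 2 := map_ofNat _ 2
lemma c4 : (starRingEnd ℂ) 4 = 4 := map_ofNat _ 4
lemma c6 : (starRingEnd ℂ) 6 = 6 := map_ofNat _ 6

lemma P_conj : P.map (starRingEnd ℂ) = P * Wc := by
  rw [P, Wc, blk_mul]
  ext i j
  have h := s3_sq
  rcases i with i | i <;> rcases j with j | j <;> fin_cases i <;> fin_cases j <;>
    simp [blk, s3_conj, c2, c4, c6]
  all_goals first
    | ring1
    | linear_combination (1 / 2 : ℂ) * I_mul_I'
    | linear_combination (s3 * s3 / 6 : ℂ) * I_mul_I' - (1 / 6 : ℂ) * h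
    | linear_combination (1 : ℂ) * I_mul_I'
    | linear_combination (s3 * s3 / 3 : ℂ) * I_mul_I' - (1 / 3 : ℂ) * h

lemma Pinv_conj : Pinv.map (starRingEnd ℂ) = -Wc * Pinv := by
  rw [Pinv, Wc, Matrix.neg_mul, blk_mul]
  ext i j
  have h := s3_sq
  rcases i with i | i <;> rcases j with j | j <;> fin_cases i <;> fin_cases j <;>
    simp [blk, s3_conj, c2, c4, c6]
  all_goals first
    | ring1
    | linear_combination (1 / 2 : ℂ) * I_mul_I'
    | linear_combination (s3 * s3 / 6 : ℂ) * I_mul_I' - (1 / 6 : ℂ) * h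
    | linear_combination (1 : ℂ) * I_mul_I'
    | linear_combination (s3 * s3 / 3 : ℂ) * I_mul_I' - (1 / 3 : ℂ) * h

lemma tl_star (hQ : IsQSubgroup H) {M : Matrix I4 I4 ℂ} (hM : M ∈ tl H) :
    Wc * M.map (starRingEnd ℂ) * (-Wc) ∈ tl H := by
  have h1 := lie_star hQ (mem_tl.mp hM)
  rw [Matrix.map_mul, Matrix.map_mul, P_conj, Pinv_conj] at h1
  rw [mem_tl]
  convert h1 using 1
  simp only [Matrix.mul_assoc]

lemma star_ac : Wc * (E ia ic).map (starRingEnd ℂ) * (-Wc) = (1 / 16 : ℂ) • E ic ia := by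
  ext i j
  rcases i with i | i <;> rcases j with j | j <;> fin_cases i <;> fin_cases j <;>
    simp [Wc, blk, Matrix.mul_apply, Fintype.sum_sum_type, Matrix.single_apply]
  linear_combination (-1 / 16 : ℂ) * I_mul_I'

lemma star_ca : Wc * (E ic ia).map (starRingEnd ℂ) * (-Wc) = (16 : ℂ) • E ia ic := by
  ext i j
  rcases i with i | i <;> rcases j with j | j <;> fin_cases i <;> fin_cases j <;>
    simp [Wc, blk, Matrix.mul_apply, Fintype.sum_sum_type, Matrix.single_apply]
  linear_combination (-16 : ℂ) * I_mul_I'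

/-- root vector for `e₁ + e₂` -/
def X1 : Matrix I4 I4 ℂ := E ia id' + E ib ic
/-- root vector for `e₁ - e₂` -/
def Y1 : Matrix I4 I4 ℂ := E ia ib - E id' ic

lemma star_X1 : Wc * (E id' ia + E ic ib).map (starRingEnd ℂ) * (-Wc) = (8 * s3) • X1 := by
  have h := s3_sq
  ext i j
  rcases i with i | i <;> rcases j with j | j <;> fin_cases i <;> fin_cases j <;>
    simp [X1, Wc, blk, Matrix.mul_apply, Fintype.sum_sum_type, Matrix.single_apply]
  all_goals linear_combination (-8 * s3 : ℂ) * I_mul_I'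

lemma star_Y1 : Wc * (E ib ia - E ic id').map (starRingEnd ℂ) * (-Wc) = (-(2 * s3 / 3)) • Y1 := by
  have h := s3_sq
  ext i j
  rcases i with i | i <;> rcases j with j | j <;> fin_cases i <;> fin_cases j <;>
    simp [Y1, Wc, blk, Matrix.mul_apply, Fintype.sum_sum_type, Matrix.single_apply]
  all_goals first
    | linear_combination (2 * s3 / 3 : ℂ) * I_mul_I'
    | linear_combination (-2 * s3 / 3 : ℂ) * I_mul_I'

lemma X1_sq : X1 * X1 = 0 := by
  ext i j
  rcases i with i | i <;> rcases j with j | j <;> fin_cases i <;> fin_cases j <;>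
    simp [X1, Matrix.mul_apply, Matrix.single_apply]

lemma Y1_sq : Y1 * Y1 = 0 := by
  ext i j
  rcases i with i | i <;> rcases j with j | j <;> fin_cases i <;> fin_cases j <;>
    simp [Y1, Matrix.mul_apply, Matrix.single_apply]

lemma XY_bracket : X1 * Y1 - Y1 * X1 = (-2 : ℂ) • E ia ic := by
  ext i j
  rcases i with i | i <;> rcases j with j | j <;> fin_cases i <;> fin_cases j <;>
    simp [X1, Y1, Matrix.mul_apply, Matrix.single_apply]
  norm_num

def M0 : Matrix I4 I4 ℂ :=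
  fromBlocks !![0, 0; Complex.I / 8, 0] !![0, 1 / 4; 1 / 4, 0] 0 !![0, -Complex.I / 8; 0, 0]
def M1 : Matrix I4 I4 ℂ :=
  fromBlocks !![0, Complex.I / 12; 0, 0] 0 !![0, 1 / 24; 1 / 24, 0] !![0, 0; -Complex.I / 12, 0]

lemma PX1 : P * X1 * Pinv = M0 + s3 • M1 := by
  have h := s3_sq
  ext i j
  rcases i with i | i <;> rcases j with j | j <;> fin_cases i <;> fin_cases j <;>
    simp [X1, P, Pinv, M0, M1, blk, Matrix.mul_apply, Fintype.sum_sum_type, Matrix.single_apply]
  all_goals first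
    | ring1
    | linear_combination (s3 / 24 : ℂ) * I_mul_I'
    | linear_combination (-s3 / 24 : ℂ) * I_mul_I'

lemma PY1 : P * Y1 * Pinv = (2 * s3 * Complex.I) • (M0 - s3 • M1) := by
  have h := s3_sq
  ext i j
  rcases i with i | i <;> rcases j with j | j <;> fin_cases i <;> fin_cases j <;>
    simp [Y1, P, Pinv, M0, M1, blk, Matrix.mul_apply, Fintype.sum_sum_type, Matrix.single_apply]
  all_goals first
    | ring1
    | linear_combination (s3 * s3 / 6 : ℂ) * I_mul_I' - (1 / 6 : ℂ) * h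
    | linear_combination (-Complex.I / 12) * h

lemma GR_I (a : ℚ) : GR ((a : ℂ) * Complex.I) := ⟨0, a, by simp⟩

lemma GR_M0 (i j : I4) : GR (M0 i j) := by
  have h0 : GR 0 := by simpa using GR.rat 0
  have h1 : GR (Complex.I / 8) := by
    have := GR_I (1 / 8)
    convert this using 1; push_cast; ring
  have h2 : GR (-Complex.I / 8) := by
    have := GR_I (-1 / 8)
    convert this using 1; push_cast; ring
  have h3 : GR (4⁻¹) := by simpa using GR.rat (1 / 4)
  rcases i with i | i <;> rcases j with j | j <;> fin_cases i <;> fin_cases j <;>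
    simp [M0] <;> assumption

lemma GR_M1 (i j : I4) : GR (M1 i j) := by
  have h0 : GR 0 := by simpa using GR.rat 0
  have h1 : GR (Complex.I / 12) := by
    have := GR_I (1 / 12)
    convert this using 1; push_cast; ring
  have h2 : GR (-Complex.I / 12) := by
    have := GR_I (-1 / 12)
    convert this using 1; push_cast; ring
  have h3 : GR (24⁻¹) := by simpa using GR.rat (1 / 24)
  rcases i with i | i <;> rcases j with j | j <;> fin_cases i <;> fin_cases j <;>
    simp [M1] <;> assumption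

lemma GR_one (i j : I4) : GR ((1 : Matrix I4 I4 ℂ) i j) := by
  rw [Matrix.one_apply]
  split_ifs
  · simpa using GR.rat 1
  · simpa using GR.rat 0

/-- Galois conjugation `√3 ↦ -√3` on square-zero elements of the Lie algebra -/
lemma gal_lie (hQ : IsQSubgroup H) {A B : Matrix I4 I4 ℂ} (hA : ∀ i j, GR (A i j))
    (hB : ∀ i j, GR (B i j)) (h : A + s3 • B ∈ lie H) (h2 : (A + s3 • B) * (A + s3 • B) = 0)
    (h3 : (A - s3 • B) * (A - s3 • B) = 0) : A - s3 • B ∈ lie H := by
  apply lie_of_line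
  apply infinite_rat
  intro t _
  show Mem H (1 + (t : ℂ) • (A - s3 • B))
  have e1 : 1 + (t : ℂ) • (A - s3 • B) = (1 + (t : ℂ) • A) - s3 • ((t : ℂ) • B) := by
    rw [smul_sub, smul_comm (t : ℂ) s3, add_sub_assoc]
  have e2 : 1 + (t : ℂ) • (A + s3 • B) = (1 + (t : ℂ) • A) + s3 • ((t : ℂ) • B) := by
    rw [smul_add, smul_comm (t : ℂ) s3, add_assoc]
  rw [e1]
  apply Mem.gal hQ
  · intro i j
    rw [Matrix.add_apply, Matrix.smul_apply, smul_eq_mul]
    exact (GR_one i j).add ((GR.rat t).mul (hA i j))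
  · intro i j
    rw [Matrix.smul_apply, smul_eq_mul]
    exact (GR.rat t).mul (hB i j)
  · rw [← e2]
    exact mem_of_lie hQ h h2 t
  · rw [← e1]
    exact IsUnit.of_mul_eq_one _ (one_add_mul_one_sub h3 t)

lemma conj_sq {X : Matrix I4 I4 ℂ} (hX : X * X = 0) : (P * X * Pinv) * (P * X * Pinv) = 0 := by
  have : (P * X * Pinv) * (P * X * Pinv) = P * (X * (Pinv * P) * X) * Pinv := by
    simp only [Matrix.mul_assoc]
  rw [this, Pinv_mul_P, Matrix.mul_one, hX, Matrix.mul_zero, Matrix.zero_mul]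

lemma kap_ne : (2 * s3 * Complex.I) ≠ 0 := by
  simp [s3_ne, Complex.I_ne_zero]

lemma M_minus_sq : (M0 - s3 • M1) * (M0 - s3 • M1) = 0 := by
  have h := conj_sq Y1_sq
  rw [PY1, Matrix.smul_mul, Matrix.mul_smul, smul_smul] at h
  exact (smul_eq_zero.mp h).resolve_left (mul_ne_zero kap_ne kap_ne)

lemma M_plus_sq : (M0 + s3 • M1) * (M0 + s3 • M1) = 0 := by
  have h := conj_sq X1_sq
  rwa [PX1] at h

lemma Y1_of_X1 (hQ : IsQSubgroup H) (h : X1 ∈ tl H) : Y1 ∈ tl H := by
  rw [mem_tl, PX1] at h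
  rw [mem_tl, PY1]
  exact (lie H).smul_mem _ (gal_lie hQ GR_M0 GR_M1 h M_plus_sq M_minus_sq)

lemma X1_of_Y1 (hQ : IsQSubgroup H) (h : Y1 ∈ tl H) : X1 ∈ tl H := by
  rw [mem_tl, PY1] at h
  rw [mem_tl, PX1]
  have h' : M0 - s3 • M1 ∈ lie H := by
    have := (lie H).smul_mem (2 * s3 * Complex.I)⁻¹ h
    rwa [smul_smul, inv_mul_cancel₀ kap_ne, one_smul] at this
  have h1 : M0 + s3 • (-M1) ∈ lie H := by
    rw [smul_neg, ← sub_eq_add_neg]; exact h'
  have h2 := gal_lie hQ GR_M0 (B := -M1) (by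
    intro i j
    have := (GR.rat (-1)).mul (GR_M1 i j)
    simpa using this) h1
    (by rw [smul_neg, ← sub_eq_add_neg]; exact M_minus_sq)
    (by rw [smul_neg, sub_neg_eq_add]; exact M_plus_sq)
  rw [smul_neg, sub_neg_eq_add] at h2
  exact h2

lemma tl_bracket (hQ : IsQSubgroup H) {X N : Matrix I4 I4 ℂ} (hX : X ∈ tl H) (hX2 : X * X = 0)
    (hN : N ∈ tl H) : X * N - N * X ∈ tl H := by
  have h := lie_bracket hQ (mem_tl.mp hX) (conj_sq hX2) (mem_tl.mp hN)
  rw [mem_tl]
  convert h using 1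
  have e1 : (P * X * Pinv) * (P * N * Pinv) = P * (X * (Pinv * P) * N) * Pinv := by
    simp only [Matrix.mul_assoc]
  have e2 : (P * N * Pinv) * (P * X * Pinv) = P * (N * (Pinv * P) * X) * Pinv := by
    simp only [Matrix.mul_assoc]
  rw [e1, e2, Pinv_mul_P, Matrix.mul_one, Matrix.mul_one, Matrix.mul_sub, Matrix.sub_mul]

lemma ac_of_X1 (hQ : IsQSubgroup H) (h : X1 ∈ tl H) : E ia ic ∈ tl H := by
  have h1 := tl_bracket hQ h X1_sq (Y1_of_X1 hQ h)
  rw [XY_bracket] at h1
  have := (tl H).smul_mem (-2 : ℂ)⁻¹ h1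
  rwa [smul_smul, inv_mul_cancel₀ (by norm_num), one_smul] at this

/-! the symplectic condition -/

lemma J_blk : Matrix.J (Fin 2) ℂ = blk 0 (-1) 1 0 := by
  have h0 : diagonal (0 : Fin 2 → ℂ) = 0 := diagonal_zero
  have h1 : diagonal (1 : Fin 2 → ℂ) = 1 := diagonal_one
  have h2 : diagonal (-1 : Fin 2 → ℂ) = -1 := by
    ext i j
    fin_cases i <;> fin_cases j <;> simp
  rw [Matrix.J, blk, h0, h1, h2]

lemma blk_transpose (A B C D : Fin 2 → ℂ) : (blk A B C D)ᵀ = blk A C B D := by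
  simp only [blk, fromBlocks_transpose, diagonal_transpose]

lemma P_symp : P * Matrix.J (Fin 2) ℂ * Pᵀ = Matrix.J (Fin 2) ℂ := by
  have h := s3_sq
  rw [J_blk, P, blk_transpose, blk_mul, blk_mul]
  apply blk_ext
  · ext k; fin_cases k <;> simp <;> ring
  · ext k; fin_cases k <;> simp
    · linear_combination (1 / 2 : ℂ) * I_mul_I'
    · linear_combination (s3 * s3 / 6 : ℂ) * I_mul_I' - (1 / 6 : ℂ) * h
  · ext k; fin_cases k <;> simp
    · linear_combination (-1 / 2 : ℂ) * I_mul_I'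
    · linear_combination (-s3 * s3 / 6 : ℂ) * I_mul_I' + (1 / 6 : ℂ) * h
  · ext k; fin_cases k <;> simp

lemma Pinv_symp : Pinv * Matrix.J (Fin 2) ℂ * Pinvᵀ = Matrix.J (Fin 2) ℂ := by
  have h1 : Pᵀ * Pinvᵀ = 1 := by rw [← transpose_mul, Pinv_mul_P, transpose_one]
  calc Pinv * Matrix.J (Fin 2) ℂ * Pinvᵀ
      = Pinv * (P * Matrix.J (Fin 2) ℂ * Pᵀ) * Pinvᵀ := by rw [P_symp]
    _ = (Pinv * P) * Matrix.J (Fin 2) ℂ * (Pᵀ * Pinvᵀ) := by simp only [Matrix.mul_assoc]
    _ = _ := by rw [Pinv_mul_P, h1, Matrix.one_mul, Matrix.mul_one]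

lemma symp_of_tl (hQ : IsQSubgroup H) (hG : H ≤ GSp4) {X : Matrix I4 I4 ℂ} (hX : X ∈ tl H)
    (hX2 : X * X = 0) : ∃ ν : ℂ, (1 + X) * Matrix.J (Fin 2) ℂ * (1 + X)ᵀ =
      ν • Matrix.J (Fin 2) ℂ := by
  obtain ⟨g, hg, hge⟩ := mem_of_lie hQ (mem_tl.mp hX) (conj_sq hX2) 1
  obtain ⟨ν, hν⟩ := hG hg
  refine ⟨ν, ?_⟩
  have e1 : (g : Matrix I4 I4 ℂ) = P * (1 + X) * Pinv := by
    rw [hge, one_smul, Matrix.mul_add, Matrix.add_mul, Matrix.mul_one, P_mul_Pinv]
  have e2 : 1 + X = Pinv * (g : Matrix I4 I4 ℂ) * P := by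
    rw [e1]
    calc 1 + X = (Pinv * P) * (1 + X) * (Pinv * P) := by
          rw [Pinv_mul_P, Matrix.one_mul, Matrix.mul_one]
      _ = _ := by simp only [Matrix.mul_assoc]
  rw [e2]
  calc Pinv * (g : Matrix I4 I4 ℂ) * P * Matrix.J (Fin 2) ℂ * (Pinv * (g : Matrix I4 I4 ℂ) * P)ᵀ
      = Pinv * ((g : Matrix I4 I4 ℂ) * (P * Matrix.J (Fin 2) ℂ * Pᵀ) *
        (g : Matrix I4 I4 ℂ)ᵀ) * Pinvᵀ := by
        rw [transpose_mul, transpose_mul]; simp only [Matrix.mul_assoc]
    _ = ν • (Pinv * Matrix.J (Fin 2) ℂ * Pinvᵀ) := by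
        rw [P_symp, hν, Matrix.mul_smul, Matrix.smul_mul]
    _ = _ := by rw [Pinv_symp]

lemma J_ab : Matrix.J (Fin 2) ℂ ia ib = 0 := by simp [Matrix.J]
lemma J_ad : Matrix.J (Fin 2) ℂ ia id' = 0 := by simp [Matrix.J]

lemma symm_X (a b : ℂ) {ν : ℂ} (h : (1 + (a • E ia id' + b • E ib ic)) * Matrix.J (Fin 2) ℂ *
    (1 + (a • E ia id' + b • E ib ic))ᵀ = ν • Matrix.J (Fin 2) ℂ) : a = b := by
  have h1 := congrFun (congrFun h ia) ib
  rw [Matrix.smul_apply, J_ab, smul_zero] at h1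
  simp [Matrix.J, Matrix.mul_apply, Fintype.sum_sum_type, Matrix.single_apply,
    Matrix.one_apply] at h1
  linear_combination h1

lemma symm_Y (a b : ℂ) {ν : ℂ} (h : (1 + (a • E ia ib + b • E id' ic)) * Matrix.J (Fin 2) ℂ *
    (1 + (a • E ia ib + b • E id' ic))ᵀ = ν • Matrix.J (Fin 2) ℂ) : b = -a := by
  have h1 := congrFun (congrFun h ia) id'
  rw [Matrix.smul_apply, J_ad, smul_zero] at h1
  simp [Matrix.J, Matrix.mul_apply, Fintype.sum_sum_type, Matrix.single_apply,
    Matrix.one_apply] at h1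
  linear_combination -h1

/-! the dichotomy -/

lemma EE_sq (a b : ℂ) : (a • E ia id' + b • E ib ic) * (a • E ia id' + b • E ib ic) = 0 := by
  ext i j
  rcases i with i | i <;> rcases j with j | j <;> fin_cases i <;> fin_cases j <;>
    simp [Matrix.mul_apply, Matrix.single_apply]

lemma EE_sq' (a b : ℂ) : (a • E ia ib + b • E id' ic) * (a • E ia ib + b • E id' ic) = 0 := by
  ext i j
  rcases i with i | i <;> rcases j with j | j <;> fin_cases i <;> fin_cases j <;>
    simp [Matrix.mul_apply, Matrix.single_apply]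

lemma ac_of_six (hQ : IsQSubgroup H) (hG : H ≤ GSp4) {a b : ℂ}
    (h : a • E ia id' + b • E ib ic ∈ tl H) (hab : a ≠ 0 ∨ b ≠ 0) : E ia ic ∈ tl H := by
  obtain ⟨ν, hν⟩ := symp_of_tl hQ hG h (EE_sq a b)
  have e := symm_X a b hν
  subst e
  have ha : a ≠ 0 := by rcases hab with h | h <;> exact h
  have h1 := (tl H).smul_mem a⁻¹ h
  rw [← smul_add, smul_smul, inv_mul_cancel₀ ha, one_smul] at h1
  exact ac_of_X1 hQ h1

lemma ac_of_neg_four (hQ : IsQSubgroup H) (hG : H ≤ GSp4) {a b : ℂ}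
    (h : a • E ia ib + b • E id' ic ∈ tl H) (hab : a ≠ 0 ∨ b ≠ 0) : E ia ic ∈ tl H := by
  obtain ⟨ν, hν⟩ := symp_of_tl hQ hG h (EE_sq' a b)
  have e := symm_Y a b hν
  subst e
  have ha : a ≠ 0 := by
    rcases hab with h | h
    · exact h
    · exact neg_ne_zero.mp h
  have h1 := (tl H).smul_mem a⁻¹ h
  rw [neg_smul, ← sub_eq_add_neg, ← smul_sub, smul_smul, inv_mul_cancel₀ ha, one_smul] at h1
  exact ac_of_X1 hQ (X1_of_Y1 hQ h1)

/-- the conjugates of the negative short root spaces -/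
lemma star_six (a b : ℂ) : Wc * (a • E id' ia + b • E ic ib).map (starRingEnd ℂ) * (-Wc) =
    ((8 * s3) * (starRingEnd ℂ) b) • E ia id' + ((8 * s3) * (starRingEnd ℂ) a) • E ib ic := by
  have h := s3_sq
  ext i j
  rcases i with i | i <;> rcases j with j | j <;> fin_cases i <;> fin_cases j <;>
    simp [Wc, blk, Matrix.mul_apply, Fintype.sum_sum_type, Matrix.single_apply]
  · linear_combination (-8 * s3 * (starRingEnd ℂ) b) * I_mul_I'
  · linear_combination (-8 * s3 * (starRingEnd ℂ) a) * I_mul_I'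

lemma star_four (a b : ℂ) : Wc * (a • E ib ia + b • E ic id').map (starRingEnd ℂ) * (-Wc) =
    ((2 * s3 / 3) * (starRingEnd ℂ) b) • E ia ib + ((2 * s3 / 3) * (starRingEnd ℂ) a) • E id' ic := by
  have h := s3_sq
  ext i j
  rcases i with i | i <;> rcases j with j | j <;> fin_cases i <;> fin_cases j <;>
    simp [Wc, blk, Matrix.mul_apply, Fintype.sum_sum_type, Matrix.single_apply]
  · linear_combination (-2 * s3 / 3 * (starRingEnd ℂ) b) * I_mul_I'
  · linear_combination (-2 * s3 / 3 * (starRingEnd ℂ) a) * I_mul_I'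

lemma entries_zero (hQ : IsQSubgroup H) (hG : H ≤ GSp4) (ho : FactorsThrough oo H)
    (hac : E ia ic ∉ tl H) {M : Matrix I4 I4 ℂ} (hM : M ∈ tl H) :
    M ia ic = 0 ∧ M ic ia = 0 ∧ M ia id' = 0 ∧ M ib ic = 0 ∧ M id' ia = 0 ∧ M ic ib = 0 ∧
    M ib ia = 0 ∧ M ic id' = 0 ∧ M ia ib = 0 ∧ M id' ic = 0 := by
  have c8 : (8 * s3 : ℂ) ≠ 0 := mul_ne_zero (by norm_num) s3_ne
  have c23 : (2 * s3 / 3 : ℂ) ≠ 0 := div_ne_zero (mul_ne_zero (by norm_num) s3_ne) (by norm_num)
  have n2 : M ia ic = 0 := by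
    by_contra h
    apply hac
    have h1 := tl_comp hQ ho hM 2
    rw [comp_two] at h1
    have h2 := (tl H).smul_mem (M ia ic)⁻¹ h1
    rwa [smul_smul, inv_mul_cancel₀ h, one_smul] at h2
  have nm2 : M ic ia = 0 := by
    by_contra h
    apply hac
    have h1 := tl_comp hQ ho hM (-2)
    rw [comp_neg_two] at h1
    have h2 := (tl H).smul_mem (M ic ia)⁻¹ h1
    rw [smul_smul, inv_mul_cancel₀ h, one_smul] at h2
    have h3 := tl_star hQ h2
    rw [star_ca] at h3
    have h4 := (tl H).smul_mem (16 : ℂ)⁻¹ h3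
    rwa [smul_smul, inv_mul_cancel₀ (by norm_num), one_smul] at h4
  have n6 : ¬ (M ia id' ≠ 0 ∨ M ib ic ≠ 0) := by
    intro h
    apply hac
    have h1 := tl_comp hQ ho hM 6
    rw [comp_six] at h1
    exact ac_of_six hQ hG h1 h
  have nm6 : ¬ (M id' ia ≠ 0 ∨ M ic ib ≠ 0) := by
    intro h
    apply hac
    have h1 := tl_comp hQ ho hM (-6)
    rw [comp_neg_six] at h1
    have h3 := tl_star hQ h1
    rw [star_six] at h3
    refine ac_of_six hQ hG h3 ?_
    rcases h with h | h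
    · right
      exact mul_ne_zero c8 ((map_ne_zero _).mpr h)
    · left
      exact mul_ne_zero c8 ((map_ne_zero _).mpr h)
  have n4 : ¬ (M ib ia ≠ 0 ∨ M ic id' ≠ 0) := by
    intro h
    apply hac
    have h1 := tl_comp hQ ho hM 4
    rw [comp_four] at h1
    have h3 := tl_star hQ h1
    rw [star_four] at h3
    refine ac_of_neg_four hQ hG h3 ?_
    rcases h with h | h
    · right
      exact mul_ne_zero c23 ((map_ne_zero _).mpr h)
    · left
      exact mul_ne_zero c23 ((map_ne_zero _).mpr h)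
  have nm4 : ¬ (M ia ib ≠ 0 ∨ M id' ic ≠ 0) := by
    intro h
    apply hac
    have h1 := tl_comp hQ ho hM (-4)
    rw [comp_neg_four] at h1
    exact ac_of_neg_four hQ hG h1 h
  push Not at n6 nm6 n4 nm4
  exact ⟨n2, nm2, n6.1, n6.2, nm6.1, nm6.2, n4.1, n4.2, nm4.1, nm4.2⟩

/-- `Jr` in the eigenbasis -/
lemma Jr_eq : Jr = P * dg Complex.I 0 (-Complex.I) 0 * Pinv := by
  rw [P, Pinv, dg, Jr, blk_mul, blk_mul]
  apply blk_ext
  · ext k; fin_cases k
    · simp; linear_combination (-Complex.I / 2 : ℂ) * I_mul_I'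
    · simp
  · ext k; fin_cases k
    · simp; linear_combination (-2 : ℂ) * I_mul_I'
    · simp
  · ext k; fin_cases k
    · simp; linear_combination (1 / 2 : ℂ) * I_mul_I'
    · simp
  · ext k; fin_cases k
    · simp; linear_combination (Complex.I / 2 : ℂ) * I_mul_I'
    · simp

lemma Jr_mem (hQ : IsQSubgroup H) (ho : FactorsThrough oo H) : Jr ∈ lie H := by
  have h1 : Jr + s3 • Js ∈ lie H := by
    apply lie_of_line
    apply infinite_real
    intro x hx
    obtain ⟨e1, e2⟩ := real_ne (a := 1) hx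
    have := mem_plus hQ ho e1 e2
    show Mem H (1 + (x : ℂ) • (Jr + s3 • Js))
    convert this using 1
    rw [smul_add, smul_comm (x : ℂ) s3, Complex.ofReal_one, one_smul, add_assoc]
  have h2 : Jr - s3 • Js ∈ lie H := by
    apply lie_of_line
    apply infinite_real
    intro x hx
    obtain ⟨e1, e2⟩ := real_ne (a := 1) hx
    have := mem_minus hQ ho e1 e2
    show Mem H (1 + (x : ℂ) • (Jr - s3 • Js))
    convert this using 1
    rw [smul_sub, smul_comm (x : ℂ) s3, Complex.ofReal_one, one_smul, add_sub_assoc]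
  have h3 := (lie H).smul_mem (1 / 2 : ℂ) ((lie H).add_mem h1 h2)
  convert h3 using 1
  rw [add_add_sub_cancel, ← two_smul ℂ Jr, smul_smul]
  norm_num

/-- the real nilpotent matrix with a single entry `1` in position `(inl 0, inr 0)` -/
def N1 : Matrix I4 I4 ℂ := E ia ic

lemma N1_eq : N1 = (-1 / 4 : ℂ) • Jr + (P * (E ia ic) * Pinv + (1 / 16 : ℂ) • (P * (E ic ia) * Pinv)) := by
  ext i j
  rcases i with i | i <;> rcases j with j | j <;> fin_cases i <;> fin_cases j <;>
    simp [N1, Jr, P, Pinv, blk, Matrix.mul_apply, Fintype.sum_sum_type, Matrix.single_apply]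
  all_goals first
    | ring1
    | linear_combination (1 / 4 : ℂ) * I_mul_I'
    | linear_combination (-1 / 4 : ℂ) * I_mul_I'
    | linear_combination (1 / 16 : ℂ) * I_mul_I'

theorem dichotomy (hQ : IsQSubgroup H) (hG : H ≤ GSp4) (ho : FactorsThrough oo H) :
    N1 ∈ lie H ∨ ∀ M ∈ lie H, M * Jr = Jr * M := by
  by_cases hac : E ia ic ∈ tl H
  · left
    have hca : E ic ia ∈ tl H := by
      have h3 := tl_star hQ hac
      rw [star_ac] at h3
      have h4 := (tl H).smul_mem (16 : ℂ) h3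
      rw [smul_smul] at h4
      norm_num at h4
      exact h4
    rw [N1_eq]
    refine (lie H).add_mem ((lie H).smul_mem _ (Jr_mem hQ ho)) ((lie H).add_mem ?_
      ((lie H).smul_mem _ ?_))
    · exact mem_tl.mp hac
    · exact mem_tl.mp hca
  · right
    intro M hM
    have h1 := mem_tl' hM
    obtain ⟨z1, z2, z3, z4, z5, z6, z7, z8, z9, z10⟩ := entries_zero hQ hG ho hac h1
    have hc : (Pinv * M * P) * dg Complex.I 0 (-Complex.I) 0 =
        dg Complex.I 0 (-Complex.I) 0 * (Pinv * M * P) := by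
      have hd : dg Complex.I 0 (-Complex.I) 0 =
          diagonal (Sum.elim ![Complex.I, 0] ![-Complex.I, 0]) := by
        rw [dg, blk, show (diagonal (0 : Fin 2 → ℂ)) = 0 from diagonal_zero, fromBlocks_diagonal]
      rw [hd]
      generalize Pinv * M * P = K at *
      ext i j
      rw [Matrix.mul_diagonal, Matrix.diagonal_mul]
      rcases i with i | i <;> rcases j with j | j <;> fin_cases i <;> fin_cases j <;>
        simp [z1, z2, z3, z4, z5, z6, z7, z8, z9, z10, mul_comm]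
    have hM' : M = P * (Pinv * M * P) * Pinv := by
      calc M = (P * Pinv) * M * (P * Pinv) := by
            rw [P_mul_Pinv, Matrix.one_mul, Matrix.mul_one]
        _ = _ := by simp only [Matrix.mul_assoc]
    rw [Jr_eq]
    calc M * (P * dg Complex.I 0 (-Complex.I) 0 * Pinv)
        = P * ((Pinv * M * P) * dg Complex.I 0 (-Complex.I) 0) * Pinv := by
          nth_rewrite 1 [hM']
          calc P * (Pinv * M * P) * Pinv * (P * dg Complex.I 0 (-Complex.I) 0 * Pinv)
              = P * (Pinv * M * P) * (Pinv * P) * dg Complex.I 0 (-Complex.I) 0 * Pinv := by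
                simp only [Matrix.mul_assoc]
            _ = _ := by rw [Pinv_mul_P, Matrix.mul_one]; simp only [Matrix.mul_assoc]
      _ = P * (dg Complex.I 0 (-Complex.I) 0 * (Pinv * M * P)) * Pinv := by rw [hc]
      _ = (P * dg Complex.I 0 (-Complex.I) 0 * Pinv) * (P * (Pinv * M * P) * Pinv) := by
          calc P * (dg Complex.I 0 (-Complex.I) 0 * (Pinv * M * P)) * Pinv
              = P * dg Complex.I 0 (-Complex.I) 0 * 1 * (Pinv * M * P) * Pinv := by
                rw [Matrix.mul_one]; simp only [Matrix.mul_assoc]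
            _ = _ := by rw [← Pinv_mul_P]; simp only [Matrix.mul_assoc]
      _ = _ := by rw [← hM']

end Pool.Agent.H17.HASC
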