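import Mathlib
import Pool.Agent.H17.HASC.Core
import Pool.Agent.H20.HASC.Hodge
import Pool.Agent.H20.HASC.SShift

/-!
# The orbit of `o` under a `ℚ`-subgroup which does not contain the unipotent group of `2e₁`
-/

set_option autoImplicit false

open Matrix

noncomputable section

namespace Pool.Agent.H17.HASC

open Pool.Agent.H20.HASC

lemma oPt_eq_oo : oPt = oo := by
  rw [oPt, oo, s3]
  simp only [mul_comm Complex.I]

/-- real part of `Jr` -/
def JrR : Matrix I4 I4 ℝ := fromBlocks 0 !![-2, 0; 0, 0] !![1 / 2, 0; 0, 0] 0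

lemma cplx_JrR : cplxMat JrR = Jr := by
  ext i j
  rcases i with i | i <;> rcases j with j | j <;> fin_cases i <;> fin_cases j <;>
    simp [JrR, Jr, blk]

/-- a point of `ℍ₂` whose complex structure commutes with `JrR` is `diag(2i, t)` -/
lemma point_of_commute {τ : Sym2} (hτ : τ ∈ SiegelX) (h : hodgeJ τ * JrR = JrR * hodgeJ τ) :
    τ.1 = 2 * Complex.I ∧ τ.2.1 = 0 := by
  have hy : ((toMat τ).map Complex.im).PosDef := hτ
  set x := (toMat τ).map Complex.re with hx
  set y := (toMat τ).map Complex.im with hydef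
  have hu := isUnit_y hτ
  rw [← hydef] at hu
  have hyi : y * y⁻¹ = 1 := Matrix.mul_nonsing_inv _ hu
  have hiy : y⁻¹ * y = 1 := Matrix.nonsing_inv_mul _ hu
  have hpos : 0 < (y⁻¹) 0 0 := (Matrix.PosDef.inv hy).diag_pos
  have hJ : hodgeJ τ = fromBlocks (x * y⁻¹) (-(y + x * y⁻¹ * x)) y⁻¹ (-(y⁻¹ * x)) := rfl
  rw [hJ, JrR, fromBlocks_multiply, fromBlocks_multiply, fromBlocks_inj] at h
  simp only [Matrix.mul_zero, Matrix.zero_mul, zero_add, add_zero] at h
  obtain ⟨e1, e2, e3, e4⟩ := h
  set C := y⁻¹ with hC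
  -- C 1 0 = 0
  have c10 : C 1 0 = 0 := by
    have := congrFun (congrFun e4 1) 0
    simp [Matrix.mul_apply, Fin.sum_univ_two] at this
    exact this
  have x01 : x 0 1 = x 1 0 := by simp [hx, toMat]
  have y01 : y 0 1 = y 1 0 := by simp [hydef, toMat]
  have y10 : y 1 0 = 0 := by
    have h0 := congrFun (congrFun hyi 1) 0
    simp [Matrix.mul_apply, Fin.sum_univ_two, c10] at h0
    rcases h0 with h0 | h0
    · exact h0
    · exact absurd h0 hpos.ne'
  have yC : y 0 0 * C 0 0 = 1 := by
    have h0 := congrFun (congrFun hyi 0) 0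
    simpa [Matrix.mul_apply, Fin.sum_univ_two, c10] using h0
  have x10 : x 1 0 = 0 := by
    have h0 := congrFun (congrFun e2 1) 0
    simp [Matrix.mul_apply, Fin.sum_univ_two, c10] at h0
    rcases h0 with h0 | h0
    · exact h0
    · exact absurd h0 hpos.ne'
  have c01 : C 0 1 = 0 := by
    have h0 := congrFun (congrFun hiy 0) 1
    simp [Matrix.mul_apply, Fin.sum_univ_two, y01, y10] at h0
    have hy11 : y 1 1 ≠ 0 := by
      have := hy.diag_pos (i := 1)
      exact this.ne'
    exact h0.resolve_right hy11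
  have x00 : x 0 0 = 0 := by
    have h0 := congrFun (congrFun e2 0) 0
    simp [Matrix.mul_apply, Fin.sum_univ_two, c10, x10] at h0
    have h1 : 4 * (C 0 0 * x 0 0) = 0 := by linarith
    have h2 := (mul_eq_zero.mp h1).resolve_left (by norm_num)
    exact (mul_eq_zero.mp h2).resolve_left hpos.ne'
  have y00 : y 0 0 = 2 := by
    have h0 := congrFun (congrFun e1 0) 0
    simp [Matrix.mul_apply, Fin.sum_univ_two, c10, x10, x00, x01] at h0
    have hy00 : 0 < y 0 0 := hy.diag_pos
    have h1 : y 0 0 = 4 * C 0 0 := by linarith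
    have h2 : y 0 0 * y 0 0 = 4 := by nlinarith
    nlinarith
  constructor
  · have hr : τ.1.re = 0 := by simpa [hx, toMat] using x00
    have hi : τ.1.im = 2 := by simpa [hydef, toMat] using y00
    apply Complex.ext <;> simp [hr, hi]
  · have hr : τ.2.1.re = 0 := by simpa [hx, toMat] using x10
    have hi : τ.2.1.im = 0 := by simpa [hydef, toMat] using y10
    apply Complex.ext <;> simp [hr, hi]

variable {H : Subgroup (GL I4 ℂ)}

lemma N1_sq : N1 * N1 = 0 := by
  ext i j
  rcases i with i | i <;> rcases j with j | j <;> fin_cases i <;> fin_cases j <;>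
    simp [N1, Matrix.mul_apply, Matrix.single_apply]

lemma cplx_unip (t : ℝ) :
    cplxMat (1 + t • Matrix.single (Sum.inl 0) (Sum.inr 0) (1 : ℝ) : Matrix I4 I4 ℝ) =
      1 + (t : ℂ) • N1 := by
  ext i j
  simp only [cplxMat, Matrix.map_apply, Matrix.add_apply, Matrix.smul_apply, smul_eq_mul, N1,
    Matrix.single_apply, Matrix.one_apply]
  split_ifs <;> simp

lemma Jo_mem (hQ : IsQSubgroup H) (ho : FactorsThrough oo H) :
    cplxMat (hodgeJ oo) ∈ lie H := by
  have h0 : cplxMat (hodgeJ oo) = Jr + s3 • Js := by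
    have h := cplx_hodge_oo Complex.I
    simp only [hodge, Complex.I_re, Complex.I_im, zero_smul, zero_add, one_smul,
      Complex.ofReal_zero, Complex.ofReal_one] at h
    exact h
  rw [h0]
  apply lie_of_line
  apply infinite_real
  intro x hx
  obtain ⟨e1, e2⟩ := real_ne (a := 1) hx
  have := mem_plus hQ ho e1 e2
  show Mem H (1 + (x : ℂ) • (Jr + s3 • Js))
  convert this using 1
  rw [smul_add, smul_comm (x : ℂ) s3, Complex.ofReal_one, one_smul, add_assoc]

/-- fibre control -/
theorem D3 (H : Subgroup (GL I4 ℂ)) (hH : H ≤ GSp4) (hQ : IsQSubgroup H)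
    (hF : FactorsThrough oPt H)
    (hN : ∃ t : ℝ, (1 + t • Matrix.single (Sum.inl 0) (Sum.inr 0) (1 : ℝ) : Matrix I4 I4 ℝ) ∉
      realPoints H) :
    ∀ M ∈ realPoints H, IsGSpPos M → (act M oPt).1 = 2 * Complex.I ∧ (act M oPt).2.1 = 0 := by
  intro M hM hMpos
  have hoX : oPt ∈ SiegelX := oPt_mem
  rw [oPt_eq_oo] at *
  rcases dichotomy hQ hH hF with h | h
  · exfalso
    obtain ⟨t, ht⟩ := hN
    apply ht
    obtain ⟨g, hg, hge⟩ := mem_of_lie hQ h N1_sq (t : ℂ)
    exact ⟨g, hg, by rw [hge, cplx_unip]⟩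
  · obtain ⟨g, hg, hge⟩ := hM
    have hgu : IsUnit M := by
      rw [Matrix.isUnit_iff_isUnit_det]
      have h1 : IsUnit ((g : Matrix I4 I4 ℂ)).det := (Matrix.isUnit_iff_isUnit_det _).mp g.isUnit
      rw [hge] at h1
      have h2 : (cplxMat M).det = ((M.det : ℝ) : ℂ) := by
        have := RingHom.map_det Complex.ofRealHom M
        exact this.symm
      rw [h2, isUnit_iff_ne_zero] at h1
      rw [isUnit_iff_ne_zero]
      intro h3
      apply h1
      rw [h3]; simp
    obtain ⟨M', hM'⟩ := hgu.exists_left_inv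
    have hM'' : M * M' = 1 := mul_eq_one_comm.mp hM'
    have e1 : hodgeJ (act M oo) = M * hodgeJ oo * M' := hodgeJ_act hMpos hM' hoX
    have e2 : cplxMat (hodgeJ (act M oo)) ∈ lie H := by
      rw [e1, cplx_mul, cplx_mul]
      apply lie_conj' (Jo_mem hQ hF) ⟨g, hg, hge⟩
      rw [← cplx_mul, hM'', cplx_one]
    have e3 := h _ e2
    have e4 : hodgeJ (act M oo) * JrR = JrR * hodgeJ (act M oo) := by
      apply cplx_inj
      rw [cplx_mul, cplx_mul, cplx_JrR]
      exact e3
    exact point_of_commute (act_mem hMpos hoX) e4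

end Pool.Agent.H17.HASC
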